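import Mathlib

/-!
# The C*-algebra of a field of operators

Given a compact space `X` and a family of contractions `V x : H → H` with continuous inner products
`⟪V x u, V x w⟫`, we form the closed linear span `F.alg` of the functions
`(m, x) ↦ δ_{m n} f(x) (V x w) ⊗ (V x u)*`.
-/

open scoped ENNReal InnerProductSpace

set_option linter.unusedSectionVars false

namespace Pool.Agent.AFCor

/-- A family of contractions with continuous inner products. -/
structure Fld (H : Type) [NormedAddCommGroup H] [InnerProductSpace ℂ H]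
    (X : Type) [TopologicalSpace X] where
  /-- the operators -/
  V : X → H →L[ℂ] H
  norm_le : ∀ x u, ‖V x u‖ ≤ ‖u‖
  cont : ∀ u w, Continuous fun x => inner ℂ (V x u) (V x w)

/-- bounded functions on `ℕ × X` with values in the bounded operators -/
noncomputable abbrev Amb (H : Type) [NormedAddCommGroup H] [InnerProductSpace ℂ H] (X : Type) :=
  lp (fun _ : ℕ × X => H →L[ℂ] H) ∞

section

variable {H : Type} [NormedAddCommGroup H] [InnerProductSpace ℂ H] [CompleteSpace H]
  {X : Type} [TopologicalSpace X] [CompactSpace X] (F : Fld H X)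

/-- rank one operator `v ↦ ⟪u, v⟫ w` -/
noncomputable abbrev rk (w u : H) : H →L[ℂ] H := InnerProductSpace.rankOne ℂ w u

lemma rk_apply (w u v : H) : rk w u v = inner ℂ u v • w := rfl

lemma norm_rk_le (w u : H) : ‖rk w u‖ ≤ ‖w‖ * ‖u‖ := by
  refine ContinuousLinearMap.opNorm_le_bound _ (by positivity) fun v => ?_
  rw [rk_apply, norm_smul]
  calc ‖inner ℂ u v‖ * ‖w‖ ≤ (‖u‖ * ‖v‖) * ‖w‖ :=
        mul_le_mul_of_nonneg_right (norm_inner_le_norm u v) (norm_nonneg _)
    _ = ‖w‖ * ‖u‖ * ‖v‖ := by ring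

lemma rk_mul (w u w' u' : H) : rk w u * rk w' u' = inner ℂ u w' • rk w u' := by
  ext v
  change rk w u (rk w' u' v) = inner ℂ u w' • rk w u' v
  simp only [rk_apply, inner_smul_right, smul_smul]
  congr 1
  ring

lemma rk_sub_left (w w' u : H) : rk (w - w') u = rk w u - rk w' u := by
  ext v
  change inner ℂ u v • (w - w') = inner ℂ u v • w - inner ℂ u v • w'
  rw [smul_sub]

lemma rk_sub_right (w u u' : H) : rk w (u - u') = rk w u - rk w u' := by
  ext v
  change inner ℂ (u - u') v • w = inner ℂ u v • w - inner ℂ u' v • w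
  rw [inner_sub_left, sub_smul]

lemma star_rk (w u : H) : star (rk w u) = rk u w := by
  rw [ContinuousLinearMap.star_eq_adjoint]
  symm
  rw [ContinuousLinearMap.eq_adjoint_iff]
  intro a b
  simp only [rk_apply, inner_smul_left, inner_smul_right, inner_conj_symm]
  ring

/-- generator of the algebra -/
noncomputable def Fld.gen (n : ℕ) (f : C(X, ℂ)) (w u : H) : Amb H X :=
  ⟨fun i => if i.1 = n then f i.2 • rk (F.V i.2 w) (F.V i.2 u) else 0, by
    refine memℓp_infty ⟨‖f‖ * (‖w‖ * ‖u‖), ?_⟩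
    rintro _ ⟨i, rfl⟩
    dsimp only
    split_ifs
    · rw [norm_smul]
      refine mul_le_mul (f.norm_coe_le_norm _) ((norm_rk_le _ _).trans ?_) (norm_nonneg _)
        (norm_nonneg _)
      exact mul_le_mul (F.norm_le _ _) (F.norm_le _ _) (norm_nonneg _) (norm_nonneg _)
    · rw [norm_zero]; positivity⟩

lemma Fld.gen_apply (n : ℕ) (f : C(X, ℂ)) (w u : H) (i : ℕ × X) :
    (F.gen n f w u : Amb H X) i = if i.1 = n then f i.2 • rk (F.V i.2 w) (F.V i.2 u) else 0 := rfl

lemma Fld.gen_apply_self (n : ℕ) (f : C(X, ℂ)) (w u : H) (x : X) :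
    (F.gen n f w u : Amb H X) (n, x) = f x • rk (F.V x w) (F.V x u) := by
  rw [F.gen_apply]; simp

lemma Fld.gen_apply_ne {n m : ℕ} (h : m ≠ n) (f : C(X, ℂ)) (w u : H) (x : X) :
    (F.gen n f w u : Amb H X) (m, x) = 0 := by
  rw [F.gen_apply]; simp [h]

lemma Fld.norm_gen_le (n : ℕ) (f : C(X, ℂ)) (w u : H) :
    ‖F.gen n f w u‖ ≤ ‖f‖ * (‖w‖ * ‖u‖) := by
  refine lp.norm_le_of_forall_le (by positivity) fun i => ?_
  rw [F.gen_apply]
  split_ifs
  · rw [norm_smul]
    refine mul_le_mul (f.norm_coe_le_norm _) ((norm_rk_le _ _).trans ?_) (norm_nonneg _)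
      (norm_nonneg _)
    exact mul_le_mul (F.norm_le _ _) (F.norm_le _ _) (norm_nonneg _) (norm_nonneg _)
  · rw [norm_zero]; positivity

/-- the kernel functions -/
noncomputable def Fld.ker (u w : H) : C(X, ℂ) := ⟨fun x => inner ℂ (F.V x u) (F.V x w), F.cont u w⟩

lemma Fld.ker_apply (u w : H) (x : X) : F.ker u w x = inner ℂ (F.V x u) (F.V x w) := rfl

lemma amb_ext {a b : Amb H X} (h : ∀ n x, a (n, x) = b (n, x)) : a = b := by
  ext1
  funext ⟨n, x⟩
  exact h n x

lemma amb_mul_apply (a b : Amb H X) (i : ℕ × X) : (a * b : Amb H X) i = a i * b i := by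
  rw [lp.infty_coeFn_mul]; rfl

lemma amb_star_apply (a : Amb H X) (i : ℕ × X) : (star a : Amb H X) i = star (a i) := by
  rw [lp.coeFn_star]; rfl

lemma amb_add_apply (a b : Amb H X) (i : ℕ × X) : (a + b : Amb H X) i = a i + b i := by
  rw [lp.coeFn_add]; rfl

lemma amb_sub_apply (a b : Amb H X) (i : ℕ × X) : (a - b : Amb H X) i = a i - b i := by
  rw [lp.coeFn_sub]; rfl

lemma amb_neg_apply (a : Amb H X) (i : ℕ × X) : (-a : Amb H X) i = -a i := by
  rw [lp.coeFn_neg]; rfl

lemma amb_smul_apply (c : ℂ) (a : Amb H X) (i : ℕ × X) : (c • a : Amb H X) i = c • a i := by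
  rw [lp.coeFn_smul]; rfl

lemma amb_zero_apply (i : ℕ × X) : (0 : Amb H X) i = 0 := by
  rw [lp.coeFn_zero]; rfl

lemma amb_norm_apply_le (a : Amb H X) (i : ℕ × X) : ‖a i‖ ≤ ‖a‖ :=
  lp.norm_apply_le_norm (by simp) a i

lemma Fld.gen_mul (n : ℕ) (f g : C(X, ℂ)) (w u w' u' : H) :
    F.gen n f w u * F.gen n g w' u' = F.gen n (f * g * F.ker u w') w u' := by
  refine amb_ext fun m x => ?_
  rw [amb_mul_apply]
  by_cases h : m = n
  · subst h
    simp only [F.gen_apply_self]
    rw [smul_mul_smul_comm, rk_mul, smul_smul]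
    rfl
  · simp only [F.gen_apply_ne h, mul_zero]

lemma Fld.gen_mul_ne {n m : ℕ} (h : n ≠ m) (f g : C(X, ℂ)) (w u w' u' : H) :
    F.gen n f w u * F.gen m g w' u' = 0 := by
  refine amb_ext fun k x => ?_
  rw [amb_mul_apply, amb_zero_apply]
  by_cases hk : k = n
  · subst hk
    rw [F.gen_apply_ne h, mul_zero]
  · rw [F.gen_apply_ne hk, zero_mul]

lemma Fld.star_gen (n : ℕ) (f : C(X, ℂ)) (w u : H) :
    star (F.gen n f w u) = F.gen n (star f) u w := by
  refine amb_ext fun m x => ?_
  rw [amb_star_apply]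
  by_cases h : m = n
  · subst h
    simp only [F.gen_apply_self]
    rw [star_smul, star_rk]
    rfl
  · simp only [F.gen_apply_ne h, star_zero]

lemma Fld.smul_gen (n : ℕ) (c : ℂ) (f : C(X, ℂ)) (w u : H) :
    c • F.gen n f w u = F.gen n (c • f) w u := by
  refine amb_ext fun m x => ?_
  rw [amb_smul_apply]
  by_cases h : m = n
  · subst h
    simp only [F.gen_apply_self, smul_smul]
    rfl
  · simp only [F.gen_apply_ne h, smul_zero]

lemma Fld.gen_add (n : ℕ) (f g : C(X, ℂ)) (w u : H) :
    F.gen n (f + g) w u = F.gen n f w u + F.gen n g w u := by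
  refine amb_ext fun m x => ?_
  rw [amb_add_apply]
  by_cases h : m = n
  · subst h
    simp only [F.gen_apply_self, ← add_smul]
    rfl
  · simp only [F.gen_apply_ne h, add_zero]

/-- the set of generators -/
def Fld.gens : Set (Amb H X) :=
  Set.range fun p : ℕ × C(X, ℂ) × H × H => F.gen p.1 p.2.1 p.2.2.1 p.2.2.2

lemma Fld.gen_mem (n : ℕ) (f : C(X, ℂ)) (w u : H) : F.gen n f w u ∈ F.gens :=
  ⟨(n, f, w, u), rfl⟩

/-- linear span of the generators -/
noncomputable def Fld.span : Submodule ℂ (Amb H X) := Submodule.span ℂ F.gens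

lemma Fld.gen_mem_span (n : ℕ) (f : C(X, ℂ)) (w u : H) : F.gen n f w u ∈ F.span :=
  Submodule.subset_span (F.gen_mem n f w u)

lemma Fld.span_mul {a b : Amb H X} (ha : a ∈ F.span) (hb : b ∈ F.span) : a * b ∈ F.span := by
  induction ha using Submodule.span_induction with
  | mem a ha =>
    obtain ⟨⟨n, f, w, u⟩, rfl⟩ := ha
    induction hb using Submodule.span_induction with
    | mem b hb =>
      obtain ⟨⟨m, g, w', u'⟩, rfl⟩ := hb
      by_cases h : n = m
      · subst h
        simp only [F.gen_mul]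
        exact F.gen_mem_span _ _ _ _
      · simp only [F.gen_mul_ne h]
        exact zero_mem _
    | zero => rw [mul_zero]; exact zero_mem _
    | add b c _ _ h1 h2 => rw [mul_add]; exact add_mem h1 h2
    | smul c b _ h => rw [mul_smul_comm]; exact Submodule.smul_mem _ _ h
  | zero => rw [zero_mul]; exact zero_mem _
  | add a c _ _ h1 h2 => rw [add_mul]; exact add_mem h1 h2
  | smul c a _ h => rw [smul_mul_assoc]; exact Submodule.smul_mem _ _ h

lemma Fld.span_star {a : Amb H X} (ha : a ∈ F.span) : star a ∈ F.span := by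
  induction ha using Submodule.span_induction with
  | mem a ha =>
    obtain ⟨⟨n, f, w, u⟩, rfl⟩ := ha
    simp only [F.star_gen]
    exact F.gen_mem_span _ _ _ _
  | zero => rw [star_zero]; exact zero_mem _
  | add a c _ _ h1 h2 => rw [star_add]; exact add_mem h1 h2
  | smul c a _ h => rw [star_smul]; exact Submodule.smul_mem _ _ h

/-- the (non-closed) star algebra of the field -/
noncomputable def Fld.alg0 : NonUnitalStarSubalgebra ℂ (Amb H X) where
  carrier := F.span
  add_mem' := fun ha hb => add_mem ha hb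
  zero_mem' := zero_mem _
  mul_mem' := fun ha hb => F.span_mul ha hb
  smul_mem' := fun c _ ha => Submodule.smul_mem _ c ha
  star_mem' := fun ha => F.span_star ha

/-- the algebra of the field -/
noncomputable def Fld.alg : NonUnitalStarSubalgebra ℂ (Amb H X) := F.alg0.topologicalClosure

instance Fld.isClosed_alg : IsClosed (F.alg : Set (Amb H X)) :=
  NonUnitalStarSubalgebra.isClosed_topologicalClosure _

lemma Fld.coe_alg : (F.alg : Set (Amb H X)) = closure (F.span : Set (Amb H X)) := rfl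

lemma Fld.span_le_alg {a : Amb H X} (ha : a ∈ F.span) : a ∈ F.alg := subset_closure ha

lemma Fld.gen_mem_alg (n : ℕ) (f : C(X, ℂ)) (w u : H) : F.gen n f w u ∈ F.alg :=
  F.span_le_alg (F.gen_mem_span n f w u)

/-- approximation of the elements of the algebra by elements of the span -/
lemma Fld.exists_approx {a : Amb H X} (ha : a ∈ F.alg) {ε : ℝ} (hε : 0 < ε) :
    ∃ b ∈ F.span, ‖a - b‖ < ε := by
  have h : a ∈ closure (F.span : Set (Amb H X)) := ha
  obtain ⟨b, hb, hab⟩ := Metric.mem_closure_iff.1 h ε hε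
  exact ⟨b, hb, by rwa [dist_eq_norm] at hab⟩

end

end Pool.Agent.AFCor
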