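import Mathlib

/-!
# Definitions for the universal AF embedding property
-/

open scoped MultiplierAlgebra

namespace Pool.Agent.AFCor

/-- `A` has no nonzero unital quotients: `A ≠ 0` and for every closed two-sided ideal `I ≠ A` the
quotient `A / I` has no unit. -/
def NoUnitalQuotients (A : Type) [NonUnitalCStarAlgebra A] : Prop :=
  Nontrivial A ∧ ∀ I : TwoSidedIdeal A, IsClosed (I : Set A) → I ≠ ⊤ →
    ¬ ∃ e : A, ∀ a : A, e * a - a ∈ I ∧ a * e - a ∈ I

/-- `A` is AF: the norm closure of an increasing sequence of finite-dimensional C*-subalgebras. -/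
def IsAF (A : Type) [NonUnitalCStarAlgebra A] : Prop :=
  ∃ S : ℕ → NonUnitalStarSubalgebra ℂ A, Monotone S ∧ (∀ n, FiniteDimensional ℂ (S n)) ∧
    closure (⋃ n, (S n : Set A)) = Set.univ

section mult

variable {A : Type} [NonUnitalCStarAlgebra A]

lemma eq_of_forall_mul_left {x y : A} (h : ∀ z, z * x = z * y) : x = y := by
  have h1 : star (x - y) * (x - y) = 0 := by rw [mul_sub, h, sub_self]
  exact sub_eq_zero.1 ((CStarRing.star_mul_self_eq_zero_iff _).1 h1)

lemma eq_of_forall_mul_right {x y : A} (h : ∀ z, x * z = y * z) : x = y := by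
  have h1 : (x - y) * star (x - y) = 0 := by rw [sub_mul, h, sub_self]
  exact sub_eq_zero.1 ((CStarRing.mul_star_self_eq_zero_iff _).1 h1)

lemma fst_mul (m : 𝓜(ℂ, A)) (x y : A) : m.fst (x * y) = m.fst x * y := by
  refine eq_of_forall_mul_left fun z => ?_
  rw [← m.central, ← mul_assoc, ← mul_assoc, m.central]

lemma snd_mul (m : 𝓜(ℂ, A)) (x y : A) : m.snd (x * y) = x * m.snd y := by
  refine eq_of_forall_mul_right fun z => ?_
  rw [m.central, mul_assoc, mul_assoc, m.central]

lemma mul_coe (m : 𝓜(ℂ, A)) (a : A) : m * (a : 𝓜(ℂ, A)) = (m.fst a : A) := by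
  refine DoubleCentralizer.ext _ _ _ _ (Prod.ext (ContinuousLinearMap.ext fun b => ?_)
    (ContinuousLinearMap.ext fun b => ?_))
  · exact fst_mul m a b
  · exact m.central b a

lemma coe_mul (m : 𝓜(ℂ, A)) (a : A) : (a : 𝓜(ℂ, A)) * m = (m.snd a : A) := by
  refine DoubleCentralizer.ext _ _ _ _ (Prod.ext (ContinuousLinearMap.ext fun b => ?_)
    (ContinuousLinearMap.ext fun b => ?_))
  · exact (m.central a b).symm
  · exact snd_mul m b a

end mult

/-- The algebra `A` as an ideal of its multiplier algebra `𝓜(ℂ, A)`. -/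
noncomputable def multIdeal (A : Type) [NonUnitalCStarAlgebra A] : Ideal 𝓜(ℂ, A) where
  carrier := Set.range fun a : A => (a : 𝓜(ℂ, A))
  add_mem' := by
    rintro _ _ ⟨a, rfl⟩ ⟨b, rfl⟩
    exact ⟨a + b, map_add (DoubleCentralizer.coeHom (𝕜 := ℂ) (A := A)) a b⟩
  zero_mem' := ⟨0, map_zero (DoubleCentralizer.coeHom (𝕜 := ℂ) (A := A))⟩
  smul_mem' := by
    rintro m _ ⟨a, rfl⟩
    exact ⟨m.fst a, (mul_coe m a).symm⟩

instance (A : Type) [NonUnitalCStarAlgebra A] : (multIdeal A).IsTwoSided where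
  mul_mem_of_left := by
    rintro _ m ⟨a, rfl⟩
    exact ⟨m.snd a, (coe_mul m a).symm⟩

lemma mem_multIdeal {A : Type} [NonUnitalCStarAlgebra A] {m : 𝓜(ℂ, A)} :
    m ∈ multIdeal A ↔ ∃ a : A, (a : 𝓜(ℂ, A)) = m := Iff.rfl

lemma star_mem_multIdeal {A : Type} [NonUnitalCStarAlgebra A] {m : 𝓜(ℂ, A)}
    (h : m ∈ multIdeal A) : star m ∈ multIdeal A := by
  obtain ⟨a, rfl⟩ := h
  exact ⟨star a, map_star (DoubleCentralizer.coeHom (𝕜 := ℂ) (A := A)) a⟩

/-- The corona algebra `M(A) / A`. -/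
abbrev Corona (A : Type) [NonUnitalCStarAlgebra A] : Type := 𝓜(ℂ, A) ⧸ multIdeal A

/-- The class of `m` in the corona algebra. -/
noncomputable def Corona.mk {A : Type} [NonUnitalCStarAlgebra A] (m : 𝓜(ℂ, A)) : Corona A :=
  Ideal.Quotient.mk (multIdeal A) m

/-- The involution of the corona algebra, `(m + A)* = m* + A`. -/
noncomputable instance (A : Type) [NonUnitalCStarAlgebra A] : Star (Corona A) where
  star := Quotient.lift (fun m => Corona.mk (star m)) fun m m' h => by
    refine (Ideal.Quotient.eq).2 ?_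
    have h1 : m - m' ∈ multIdeal A := by
      rw [← Ideal.Quotient.eq]
      exact Quotient.sound h
    have h2 := star_mem_multIdeal h1
    rwa [star_sub] at h2

lemma Corona.star_mk {A : Type} [NonUnitalCStarAlgebra A] (m : 𝓜(ℂ, A)) :
    star (Corona.mk m) = Corona.mk (star m) := rfl

noncomputable instance (A : Type) [NonUnitalCStarAlgebra A] : StarRing (Corona A) where
  star_involutive := by
    rintro ⟨m⟩
    exact congrArg Corona.mk (star_star m)
  star_mul := by
    rintro ⟨m⟩ ⟨m'⟩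
    exact congrArg Corona.mk (star_mul m m')
  star_add := by
    rintro ⟨m⟩ ⟨m'⟩
    exact congrArg Corona.mk (star_add m m')

/-- The universal AF embedding property. -/
def UniversalAFEmbedding (A : Type) [NonUnitalCStarAlgebra A] : Prop :=
  (∀ (B : Type) [NonUnitalCStarAlgebra B], Nontrivial B → IsAF B →
    ∃ φ : B →⋆ₙₐ[ℂ] Corona A, Function.Injective φ) ∧
  (∀ (B : Type) [CStarAlgebra B], Nontrivial B → IsAF B →
    ∃ φ : B →⋆ₐ[ℂ] Corona A, Function.Injective φ)

end Pool.Agent.AFCor
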