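import Mathlib
import Pool.Agent.AFCor.Basic
import Pool.Agent.AFCor.Defs

/-!
# No unital copy of the two by two matrices in the corona algebra
-/

open scoped ENNReal InnerProductSpace MultiplierAlgebra

set_option linter.unusedSectionVars false

namespace Pool.Agent.AFCor

section

variable {H : Type} [NormedAddCommGroup H] [InnerProductSpace ℂ H] [CompleteSpace H]
  {X : Type} [TopologicalSpace X] [CompactSpace X] (F : Fld H X)

/-- `ξ` is a unit vector split off by the field -/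
structure Fld.Split (ξ : H) : Prop where
  norm_eq : ‖ξ‖ = 1
  inner_V : ∀ x w, inner ℂ (F.V x ξ) (F.V x w) = inner ℂ ξ w

/-- continuous, with values in a finite dimensional subspace orthogonal to `ξ` -/
def FinRange (ξ : H) (g : X → H) : Prop :=
  Continuous g ∧ ∃ E : Submodule ℂ H, FiniteDimensional ℂ E ∧ (∀ x, g x ∈ E) ∧
    ∀ v ∈ E, inner ℂ ξ v = 0

/-- any two sections of the complement of `ξ` have a common (approximate) zero -/
def Fld.Zero (ξ : H) : Prop := ∀ g g' : X → H, FinRange ξ g → FinRange ξ g' → ∀ ε > 0,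
  ∃ x, ‖F.V x (g x)‖ ≤ ε ∧ ‖F.V x (g' x)‖ ≤ ε

lemma FinRange.add {ξ : H} {g g' : X → H} (h : FinRange ξ g) (h' : FinRange ξ g') :
    FinRange ξ (g + g') := by
  obtain ⟨hc, E, hE, hgE, hE0⟩ := h
  obtain ⟨hc', E', hE', hgE', hE0'⟩ := h'
  refine ⟨hc.add hc', E ⊔ E', inferInstance, fun x => ?_, fun v hv => ?_⟩
  · exact Submodule.add_mem_sup (hgE x) (hgE' x)
  · obtain ⟨a, ha, b, hb, rfl⟩ := Submodule.mem_sup.1 hv
    rw [inner_add_right, hE0 a ha, hE0' b hb, add_zero]

lemma FinRange.smul {ξ : H} {g : X → H} (h : FinRange ξ g) (c : ℂ) :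
    FinRange ξ (c • g) := by
  obtain ⟨hc, E, hE, hgE, hE0⟩ := h
  exact ⟨hc.const_smul c, E, hE, fun x => E.smul_mem c (hgE x), hE0⟩

lemma FinRange.zero {ξ : H} : FinRange ξ (0 : X → H) :=
  ⟨continuous_const, ⊥, inferInstance, fun _ => Submodule.zero_mem _, fun v hv => by
    rw [(Submodule.mem_bot ℂ).1 hv, inner_zero_right]⟩

lemma Fld.column_span {ξ : H} (hξ : F.Split ξ) {b : Amb H X} (hb : b ∈ F.span) (n : ℕ) :
    ∃ (l : X → ℂ) (g : X → H), FinRange ξ g ∧
      ∀ x, b (n, x) (F.V x ξ) = l x • F.V x ξ + F.V x (g x) := by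
  induction hb using Submodule.span_induction with
  | mem b hb =>
    obtain ⟨⟨m, f, w, u⟩, rfl⟩ := hb
    by_cases h : n = m
    · subst h
      have hw : inner ℂ ξ (w - inner ℂ ξ w • ξ) = 0 := by
        rw [inner_sub_right, inner_smul_right, inner_self_eq_norm_sq_to_K, hξ.norm_eq]
        simp
      refine ⟨fun x => f x * F.ker u ξ x * inner ℂ ξ w,
        fun x => (f x * F.ker u ξ x) • (w - inner ℂ ξ w • ξ), ?_, fun x => ?_⟩
      · refine ⟨by fun_prop, Submodule.span ℂ {w - inner ℂ ξ w • ξ}, inferInstance,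
          fun x => Submodule.smul_mem _ _ (Submodule.mem_span_singleton_self _), fun v hv => ?_⟩
        obtain ⟨c, rfl⟩ := Submodule.mem_span_singleton.1 hv
        rw [inner_smul_right, hw, mul_zero]
      · simp only [F.gen_apply_self]
        change f x • (inner ℂ (F.V x u) (F.V x ξ) • F.V x w) = _
        rw [map_smul, map_sub, map_smul, F.ker_apply]
        module
    · refine ⟨fun _ => 0, 0, FinRange.zero, fun x => ?_⟩
      simp only [F.gen_apply_ne h]
      simp
  | zero => exact ⟨fun _ => 0, 0, FinRange.zero, fun x => by rw [amb_zero_apply]; simp⟩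
  | add b c _ _ h1 h2 =>
    obtain ⟨l, g, hg, h⟩ := h1
    obtain ⟨l', g', hg', h'⟩ := h2
    refine ⟨l + l', g + g', hg.add hg', fun x => ?_⟩
    rw [amb_add_apply, add_apply, h, h', Pi.add_apply, Pi.add_apply, map_add]
    module
  | smul c b _ h =>
    obtain ⟨l, g, hg, h⟩ := h
    refine ⟨c • l, c • g, hg.smul c, fun x => ?_⟩
    rw [amb_smul_apply, smul_apply, h, Pi.smul_apply, Pi.smul_apply, map_smul]
    module

lemma Fld.Split.norm_V {ξ : H} (hξ : F.Split ξ) (x : X) : ‖F.V x ξ‖ = 1 := by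
  have h1 : inner ℂ (F.V x ξ) (F.V x ξ) = inner ℂ ξ ξ := hξ.inner_V x ξ
  rw [inner_self_eq_norm_sq_to_K, inner_self_eq_norm_sq_to_K, hξ.norm_eq] at h1
  have h2 : ‖F.V x ξ‖ ^ 2 = 1 := by
    have h3 : ((‖F.V x ξ‖ ^ 2 : ℝ) : ℂ) = ((1 : ℝ) : ℂ) := by
      push_cast
      simpa using h1
    exact_mod_cast h3
  nlinarith [norm_nonneg (F.V x ξ)]

/-- Two elements of the algebra have a common approximate eigenvector. -/
lemma Fld.exists_eig {ξ : H} (hξ : F.Split ξ) (hZ : F.Zero ξ) {s s' : Amb H X}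
    (hs : s ∈ F.alg) (hs' : s' ∈ F.alg) (n : ℕ) {δ : ℝ} (hδ : 0 < δ) :
    ∃ x, ∃ l l' : ℂ, ‖s (n, x) (F.V x ξ) - l • F.V x ξ‖ ≤ δ ∧
      ‖s' (n, x) (F.V x ξ) - l' • F.V x ξ‖ ≤ δ := by
  obtain ⟨b, hb, hsb⟩ := F.exists_approx hs (ε := δ / 2) (by positivity)
  obtain ⟨b', hb', hsb'⟩ := F.exists_approx hs' (ε := δ / 2) (by positivity)
  obtain ⟨l, g, hg, h⟩ := F.column_span hξ hb n
  obtain ⟨l', g', hg', h'⟩ := F.column_span hξ hb' n
  obtain ⟨x, hx, hx'⟩ := hZ g g' hg hg' (δ / 2) (by positivity)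
  have key : ∀ {s b : Amb H X} {l : X → ℂ} {g : X → H}, ‖s - b‖ < δ / 2 →
      b (n, x) (F.V x ξ) = l x • F.V x ξ + F.V x (g x) → ‖F.V x (g x)‖ ≤ δ / 2 →
      ‖s (n, x) (F.V x ξ) - l x • F.V x ξ‖ ≤ δ := by
    intro s b l g h1 h2 h3
    have h4 : s (n, x) (F.V x ξ) - l x • F.V x ξ =
        ((s - b : Amb H X) (n, x)) (F.V x ξ) + F.V x (g x) := by
      rw [amb_sub_apply, sub_apply, h2]
      abel
    rw [h4]
    refine (norm_add_le _ _).trans ?_
    have h5 : ‖((s - b : Amb H X) (n, x)) (F.V x ξ)‖ ≤ δ / 2 := by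
      refine (ContinuousLinearMap.le_opNorm _ _).trans ?_
      rw [hξ.norm_V, mul_one]
      exact (amb_norm_apply_le _ _).trans h1.le
    linarith
  exact ⟨x, l x, l' x, key hsb (h x) hx, key hsb' (h' x) hx'⟩

lemma Fld.eventually_small {a : Amb H X} (ha : a ∈ F.alg) {ε : ℝ} (hε : 0 < ε) :
    ∃ N : ℕ, ∀ n ≥ N, ∀ x, ‖a (n, x)‖ ≤ ε := by
  obtain ⟨b, hb, hab⟩ := F.exists_approx ha hε
  have key : ∀ b ∈ F.span, ∃ N : ℕ, ∀ n ≥ N, ∀ x, b (n, x) = 0 := by
    intro b hb
    induction hb using Submodule.span_induction with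
    | mem b hb =>
      obtain ⟨⟨m, f, w, u⟩, rfl⟩ := hb
      exact ⟨m + 1, fun n hn x => F.gen_apply_ne (by omega) _ _ _ _⟩
    | zero => exact ⟨0, fun n _ x => amb_zero_apply _⟩
    | add b c _ _ h1 h2 =>
      obtain ⟨N, h1⟩ := h1
      obtain ⟨M, h2⟩ := h2
      refine ⟨max N M, fun n hn x => ?_⟩
      rw [amb_add_apply, h1 n ((le_max_left _ _).trans hn), h2 n ((le_max_right _ _).trans hn),
        add_zero]
    | smul c b _ h =>
      obtain ⟨N, h⟩ := h
      exact ⟨N, fun n hn x => by rw [amb_smul_apply, h n hn, smul_zero]⟩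
  obtain ⟨N, hN⟩ := key b hb
  refine ⟨N, fun n hn x => ?_⟩
  have h1 : a (n, x) = (a - b : Amb H X) (n, x) := by
    rw [amb_sub_apply, hN n hn, sub_zero]
  rw [h1]
  exact (amb_norm_apply_le _ _).trans hab.le

/-- Numerical core of the argument. -/
lemma core_numeric {S S' a a' : H →L[ℂ] H} {η : H} (hη : ‖η‖ = 1)
    (h1 : inner ℂ (S' η) (S η) = inner ℂ η (a η))
    (h2 : inner ℂ (S η) (S η) + inner ℂ (S' η) (S' η) = 1 + inner ℂ η (a' η))
    (h3 : inner ℂ (S' η) η = inner ℂ η (S η))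
    {l l' : ℂ} (hl : ‖S η - l • η‖ ≤ 1 / 4) (hl' : ‖S' η - l' • η‖ ≤ 1 / 4)
    (ha : ‖a‖ ≤ 1 / 8) (ha' : ‖a'‖ ≤ 1 / 8) : False := by
  set c : ℂ := inner ℂ η (S η) with hc
  have hηη : inner ℂ η η = (1 : ℂ) := by
    rw [inner_self_eq_norm_sq_to_K, hη]; simp
  -- orthogonal parts
  have hmin : ∀ (v : H) (z : ℂ), ‖v - z • η‖ ≤ 1 / 4 → ‖v - inner ℂ η v • η‖ ≤ 1 / 4 := by
    intro v z hz
    refine le_trans ?_ hz
    have horth : inner ℂ (v - inner ℂ η v • η) ((inner ℂ η v - z) • η) = (0 : ℂ) := by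
      rw [inner_smul_right, inner_sub_left, inner_smul_left, hηη, mul_one, inner_conj_symm,
        sub_self, mul_zero]
    have h4 : v - z • η = (v - inner ℂ η v • η) + (inner ℂ η v - z) • η := by
      rw [sub_smul]; abel
    have h5 := norm_add_sq_eq_norm_sq_add_norm_sq_of_inner_eq_zero _ _ horth
    rw [← h4] at h5
    have h6 : 0 ≤ ‖(inner ℂ η v - z) • η‖ := norm_nonneg _
    nlinarith [norm_nonneg (v - z • η), norm_nonneg (v - inner ℂ η v • η)]
  have hS : ‖S η - c • η‖ ≤ 1 / 4 := hmin _ _ hl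
  have hc' : inner ℂ η (S' η) = star c := by
    rw [← h3]; exact (inner_conj_symm _ _).symm
  have hS' : ‖S' η - star c • η‖ ≤ 1 / 4 := by rw [← hc']; exact hmin _ _ hl'
  set r : H := S η - c • η with hr
  set r' : H := S' η - star c • η with hr'
  have hrη : inner ℂ η r = (0 : ℂ) := by
    rw [hr, inner_sub_right, inner_smul_right, hηη, mul_one, ← hc, sub_self]
  have hrη' : inner ℂ η r' = (0 : ℂ) := by
    rw [hr', inner_sub_right, inner_smul_right, hηη, mul_one, hc', sub_self]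
  have hrη2 : inner ℂ r η = (0 : ℂ) := inner_eq_zero_symm.1 hrη
  have hrη2' : inner ℂ r' η = (0 : ℂ) := inner_eq_zero_symm.1 hrη'
  have eS : S η = c • η + r := by rw [hr]; abel
  have eS' : S' η = star c • η + r' := by rw [hr']; abel
  -- first relation
  have e1 : inner ℂ (S' η) (S η) = c * c + inner ℂ r' r := by
    rw [eS, eS']
    simp only [inner_add_left, inner_add_right, inner_smul_left, inner_smul_right, hηη, hrη,
      hrη2', mul_zero, mul_one, zero_add, add_zero]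
    simp
  have e2 : inner ℂ (S η) (S η) = ((‖c‖ ^ 2 + ‖r‖ ^ 2 : ℝ) : ℂ) := by
    rw [eS]
    simp only [inner_add_left, inner_add_right, inner_smul_left, inner_smul_right, hηη, hrη,
      hrη2, mul_zero, mul_one, zero_add, add_zero]
    rw [inner_self_eq_norm_sq_to_K, Complex.mul_conj']
    push_cast; rfl
  have e3 : inner ℂ (S' η) (S' η) = ((‖c‖ ^ 2 + ‖r'‖ ^ 2 : ℝ) : ℂ) := by
    rw [eS']
    simp only [inner_add_left, inner_add_right, inner_smul_left, inner_smul_right, hηη, hrη',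
      hrη2', mul_zero, mul_one, zero_add, add_zero]
    rw [inner_self_eq_norm_sq_to_K, Complex.mul_conj']
    push_cast
    simp
  have n1 : ‖inner ℂ η (a η)‖ ≤ 1 / 8 := by
    refine (norm_inner_le_norm _ _).trans ?_
    rw [hη, one_mul]
    refine (ContinuousLinearMap.le_opNorm _ _).trans ?_
    rw [hη, mul_one]; exact ha
  have n2 : ‖inner ℂ η (a' η)‖ ≤ 1 / 8 := by
    refine (norm_inner_le_norm _ _).trans ?_
    rw [hη, one_mul]
    refine (ContinuousLinearMap.le_opNorm _ _).trans ?_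
    rw [hη, mul_one]; exact ha'
  have n3 : ‖inner ℂ r' r‖ ≤ 1 / 16 := by
    refine (norm_inner_le_norm _ _).trans ?_
    calc ‖r'‖ * ‖r‖ ≤ 1 / 4 * (1 / 4) := mul_le_mul hS' hS (norm_nonneg _) (by norm_num)
      _ = 1 / 16 := by norm_num
  have n4 : ‖c‖ ^ 2 ≤ 1 / 8 + 1 / 16 := by
    have h5 : c * c = inner ℂ η (a η) - inner ℂ r' r := by
      rw [← h1, e1]; ring
    have h6 : ‖c‖ ^ 2 = ‖c * c‖ := by rw [norm_mul]; ring
    rw [h6, h5]
    exact (norm_sub_le _ _).trans (add_le_add n1 n3)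
  have n5 : 1 - 1 / 8 ≤ (‖c‖ ^ 2 + ‖r‖ ^ 2) + (‖c‖ ^ 2 + ‖r'‖ ^ 2) := by
    rw [e2, e3] at h2
    have h7 := congrArg Complex.re h2
    simp only [Complex.add_re, Complex.ofReal_re, Complex.one_re] at h7
    rw [h7]
    have h8 : |(inner ℂ η (a' η) : ℂ).re| ≤ 1 / 8 := (Complex.abs_re_le_norm _).trans n2
    have h9 := (abs_le.1 h8).1
    linarith
  have hr2 : ‖r‖ ^ 2 ≤ 1 / 16 := by nlinarith [norm_nonneg r]
  have hr2' : ‖r'‖ ^ 2 ≤ 1 / 16 := by nlinarith [norm_nonneg r']
  linarith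

lemma Fld.Split.ker_eq {ξ : H} (hξ : F.Split ξ) : F.ker ξ ξ = 1 := by
  ext x
  rw [F.ker_apply, inner_self_eq_norm_sq_to_K, hξ.norm_V]
  simp

/-- The multiplier algebra contains no element which generates a copy of the two by two matrices
modulo the algebra. -/
theorem Fld.core {ξ : H} (hξ : F.Split ξ) (hZ : F.Zero ξ) (m : 𝓜(ℂ, F.alg)) (a a' : F.alg)
    (h1 : m * m = (a : 𝓜(ℂ, F.alg)))
    (h2 : star m * m + m * star m = 1 + (a' : 𝓜(ℂ, F.alg))) : False := by
  obtain ⟨N, hN⟩ := F.eventually_small a.2 (ε := 1 / 8) (by norm_num)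
  obtain ⟨M, hM⟩ := F.eventually_small a'.2 (ε := 1 / 8) (by norm_num)
  set n := max N M with hn
  set p : F.alg := ⟨F.gen n 1 ξ ξ, F.gen_mem_alg _ _ _ _⟩ with hp
  have hpstar : star p = p := by
    apply Subtype.ext
    change star (F.gen n 1 ξ ξ) = F.gen n 1 ξ ξ
    rw [F.star_gen, star_one]
  have hpx : ∀ x, (p : Amb H X) (n, x) = rk (F.V x ξ) (F.V x ξ) := by
    intro x
    change (F.gen n 1 ξ ξ) (n, x) = _
    rw [F.gen_apply_self]
    simp
  set s : F.alg := m.fst p with hs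
  set s' : F.alg := (star m).fst p with hs'
  have es' : star s' = m.snd p := by
    rw [hs', DoubleCentralizer.star_fst, star_star, hpstar]
  have es : star s = (star m).snd p := by
    rw [hs, DoubleCentralizer.star_snd, hpstar]
  have r1 : star s' * s = p * (a * p) := by
    rw [es', hs, m.central]
    have h3 : (m * m).fst p = ((a : 𝓜(ℂ, F.alg))).fst p := by rw [h1]
    exact congrArg (p * ·) h3
  have r2 : star s * s + star s' * s' = p * (p + a' * p) := by
    rw [es', es, hs, hs', (star m).central, m.central, ← mul_add]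
    have h3 : (star m * m + m * star m).fst p = (1 + (a' : 𝓜(ℂ, F.alg))).fst p := by rw [h2]
    exact congrArg (p * ·) h3
  have r3 : star s' * p = p * s := by
    rw [es', hs, m.central]
  obtain ⟨x, l, l', hl, hl'⟩ := F.exists_eig hξ hZ s.2 s'.2 n (δ := 1 / 4) (by norm_num)
  have hη := hξ.norm_V (F := F) x
  set η := F.V x ξ with hηdef
  have hηη : inner ℂ η η = (1 : ℂ) := by
    rw [inner_self_eq_norm_sq_to_K, hη]; simp
  have hpη : (p : Amb H X) (n, x) η = η := by
    rw [hpx, rk_apply, ← hηdef, hηη, one_smul]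
  have hpinner : ∀ v, inner ℂ η ((p : Amb H X) (n, x) v) = inner ℂ η v := by
    intro v
    rw [hpx, rk_apply, ← hηdef, inner_smul_right, hηη, mul_one]
  have hstar : ∀ (t : F.alg) (v w : H), inner ℂ v ((star (t : Amb H X) : Amb H X) (n, x) w) =
      inner ℂ ((t : Amb H X) (n, x) v) w := by
    intro t v w
    rw [amb_star_apply, ContinuousLinearMap.star_eq_adjoint, ContinuousLinearMap.adjoint_inner_right]
  have q1 : inner ℂ ((s' : Amb H X) (n, x) η) ((s : Amb H X) (n, x) η) =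
      inner ℂ η ((a : Amb H X) (n, x) η) := by
    have h3 : (star (s' : Amb H X) * (s : Amb H X) : Amb H X) =
        (p : Amb H X) * ((a : Amb H X) * (p : Amb H X)) := congrArg Subtype.val r1
    have h4 := congrArg (fun t : Amb H X => inner ℂ η (t (n, x) η)) h3
    simp only [amb_mul_apply] at h4
    change inner ℂ η ((star (s' : Amb H X) : Amb H X) (n, x) ((s : Amb H X) (n, x) η)) =
      inner ℂ η ((p : Amb H X) (n, x) ((a : Amb H X) (n, x) ((p : Amb H X) (n, x) η))) at h4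
    rwa [hstar, hpinner, hpη] at h4
  have q2 : inner ℂ ((s : Amb H X) (n, x) η) ((s : Amb H X) (n, x) η) +
      inner ℂ ((s' : Amb H X) (n, x) η) ((s' : Amb H X) (n, x) η) =
      1 + inner ℂ η ((a' : Amb H X) (n, x) η) := by
    have h3 : (star (s : Amb H X) * (s : Amb H X) + star (s' : Amb H X) * (s' : Amb H X) :
        Amb H X) = (p : Amb H X) * ((p : Amb H X) + (a' : Amb H X) * (p : Amb H X)) :=
      congrArg Subtype.val r2
    have h4 := congrArg (fun t : Amb H X => inner ℂ η (t (n, x) η)) h3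
    simp only [amb_mul_apply, amb_add_apply] at h4
    change inner ℂ η ((star (s : Amb H X) : Amb H X) (n, x) ((s : Amb H X) (n, x) η) +
      (star (s' : Amb H X) : Amb H X) (n, x) ((s' : Amb H X) (n, x) η)) =
      inner ℂ η ((p : Amb H X) (n, x) ((p : Amb H X) (n, x) η +
        (a' : Amb H X) (n, x) ((p : Amb H X) (n, x) η))) at h4
    rwa [inner_add_right, hstar, hstar, hpinner, hpη, inner_add_right, hηη] at h4
  have q3 : inner ℂ ((s' : Amb H X) (n, x) η) η = inner ℂ η ((s : Amb H X) (n, x) η) := by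
    have h3 : (star (s' : Amb H X) * (p : Amb H X) : Amb H X) =
        (p : Amb H X) * (s : Amb H X) := congrArg Subtype.val r3
    have h4 := congrArg (fun t : Amb H X => inner ℂ η (t (n, x) η)) h3
    simp only [amb_mul_apply] at h4
    change inner ℂ η ((star (s' : Amb H X) : Amb H X) (n, x) ((p : Amb H X) (n, x) η)) =
      inner ℂ η ((p : Amb H X) (n, x) ((s : Amb H X) (n, x) η)) at h4
    rwa [hstar, hpinner, hpη] at h4
  exact core_numeric hη q1 q2 q3 hl hl' (hN n (le_max_left _ _) x) (hM n (le_max_right _ _) x)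

end

section

variable {A : Type} [NonUnitalCStarAlgebra A]

lemma exists_mult_of_hom (φ : CStarMatrix (Fin 2) (Fin 2) ℂ →⋆ₐ[ℂ] Corona A) :
    ∃ (m : 𝓜(ℂ, A)) (a a' : A), m * m = (a : 𝓜(ℂ, A)) ∧
      star m * m + m * star m = 1 + (a' : 𝓜(ℂ, A)) := by
  let e : CStarMatrix (Fin 2) (Fin 2) ℂ := CStarMatrix.ofMatrix !![0, 0; 1, 0]
  have he1 : e * e = 0 := by
    ext i j
    fin_cases i <;> fin_cases j <;> simp [e, CStarMatrix.mul_apply]
  have he2 : star e * e + e * star e = 1 := by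
    ext i j
    fin_cases i <;> fin_cases j <;> simp [e, CStarMatrix.mul_apply, CStarMatrix.star_apply]
  obtain ⟨m, hm⟩ := Ideal.Quotient.mk_surjective (φ e)
  have hstar : Ideal.Quotient.mk (multIdeal A) (star m) = φ (star e) := by
    rw [map_star φ e, ← hm]
    exact (Corona.star_mk m).symm
  have h1 : m * m ∈ multIdeal A := by
    rw [← Ideal.Quotient.eq_zero_iff_mem, map_mul, hm, ← map_mul, he1, map_zero]
  have h2 : star m * m + m * star m - 1 ∈ multIdeal A := by
    rw [← Ideal.Quotient.eq_zero_iff_mem, map_sub, map_add, map_mul, map_mul, hm, hstar,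
      ← map_mul, ← map_mul, ← map_add, he2, map_one, map_one, sub_self]
  obtain ⟨a, ha⟩ := h1
  obtain ⟨a', ha'⟩ := h2
  have h3 : (a' : 𝓜(ℂ, A)) = star m * m + m * star m - 1 := ha'
  exact ⟨m, a, a', ha.symm, by rw [h3]; exact (add_sub_cancel _ _).symm⟩

end

section

variable {H : Type} [NormedAddCommGroup H] [InnerProductSpace ℂ H] [CompleteSpace H]
  {X : Type} [TopologicalSpace X] [CompactSpace X] (F : Fld H X)

/-- There is no unital `*`-homomorphism from the two by two matrices to the corona algebra. -/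
theorem Fld.isEmpty_hom {ξ : H} (hξ : F.Split ξ) (hZ : F.Zero ξ) :
    IsEmpty (CStarMatrix (Fin 2) (Fin 2) ℂ →⋆ₐ[ℂ] Corona F.alg) := by
  refine ⟨fun φ => ?_⟩
  obtain ⟨m, a, a', h1, h2⟩ := exists_mult_of_hom φ
  exact F.core hξ hZ m a a' h1 h2

end

end Pool.Agent.AFCor
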