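import Mathlib
import Pool.Agent.AFCor.Basic

/-!
# Separability, and absence of unital quotients
-/

open scoped ENNReal InnerProductSpace

set_option linter.unusedSectionVars false

namespace Pool.Agent.AFCor

section

variable {H : Type} [NormedAddCommGroup H] [InnerProductSpace ℂ H] [CompleteSpace H]
  {X : Type} [TopologicalSpace X] [CompactSpace X] (F : Fld H X)

lemma Fld.gen_sub_f (n : ℕ) (f g : C(X, ℂ)) (w u : H) :
    F.gen n (f - g) w u = F.gen n f w u - F.gen n g w u := by
  refine amb_ext fun m x => ?_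
  rw [amb_sub_apply]
  by_cases h : m = n
  · subst h
    simp only [F.gen_apply_self, ← sub_smul]
    rfl
  · simp only [F.gen_apply_ne h, sub_zero]

lemma Fld.gen_sub_w (n : ℕ) (f : C(X, ℂ)) (w w' u : H) :
    F.gen n f (w - w') u = F.gen n f w u - F.gen n f w' u := by
  refine amb_ext fun m x => ?_
  rw [amb_sub_apply]
  by_cases h : m = n
  · subst h
    simp only [F.gen_apply_self, ← smul_sub, map_sub, rk_sub_left]
  · simp only [F.gen_apply_ne h, sub_zero]

lemma Fld.gen_sub_u (n : ℕ) (f : C(X, ℂ)) (w u u' : H) :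
    F.gen n f w (u - u') = F.gen n f w u - F.gen n f w u' := by
  refine amb_ext fun m x => ?_
  rw [amb_sub_apply]
  by_cases h : m = n
  · subst h
    simp only [F.gen_apply_self, ← smul_sub, map_sub]
  · simp only [F.gen_apply_ne h, sub_zero]

lemma Fld.continuous_gen (n : ℕ) :
    Continuous fun p : C(X, ℂ) × H × H => F.gen n p.1 p.2.1 p.2.2 := by
  rw [continuous_iff_continuousAt]
  rintro ⟨f₀, w₀, u₀⟩
  rw [ContinuousAt, tendsto_iff_norm_sub_tendsto_zero]
  have hb : ∀ p : C(X, ℂ) × H × H, ‖F.gen n p.1 p.2.1 p.2.2 - F.gen n f₀ w₀ u₀‖ ≤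
      ‖p.1 - f₀‖ * (‖p.2.1‖ * ‖p.2.2‖) + ‖f₀‖ * (‖p.2.1 - w₀‖ * ‖p.2.2‖)
        + ‖f₀‖ * (‖w₀‖ * ‖p.2.2 - u₀‖) := by
    rintro ⟨f, w, u⟩
    have h : F.gen n f w u - F.gen n f₀ w₀ u₀ =
        F.gen n (f - f₀) w u + F.gen n f₀ (w - w₀) u + F.gen n f₀ w₀ (u - u₀) := by
      rw [F.gen_sub_f, F.gen_sub_w, F.gen_sub_u]
      abel
    dsimp only
    rw [h]
    refine (norm_add_le _ _).trans (add_le_add ((norm_add_le _ _).trans (add_le_add ?_ ?_)) ?_)
    · exact F.norm_gen_le _ _ _ _
    · exact F.norm_gen_le _ _ _ _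
    · exact F.norm_gen_le _ _ _ _
  refine squeeze_zero (fun _ => norm_nonneg _) hb ?_
  have hc : Continuous fun p : C(X, ℂ) × H × H =>
      ‖p.1 - f₀‖ * (‖p.2.1‖ * ‖p.2.2‖) + ‖f₀‖ * (‖p.2.1 - w₀‖ * ‖p.2.2‖)
        + ‖f₀‖ * (‖w₀‖ * ‖p.2.2 - u₀‖) := by fun_prop
  have := hc.tendsto (f₀, w₀, u₀)
  simpa using this

/-- The algebra is separable. -/
theorem Fld.separable [T2Space X] [SecondCountableTopology X] [TopologicalSpace.SeparableSpace H] :
    TopologicalSpace.SeparableSpace F.alg := by
  have h1 : TopologicalSpace.IsSeparable F.gens := by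
    have : F.gens = ⋃ n : ℕ, Set.range fun p : C(X, ℂ) × H × H => F.gen n p.1 p.2.1 p.2.2 := by
      ext a
      simp only [Fld.gens, Set.mem_range, Set.mem_iUnion, Prod.exists]
    rw [this]
    refine TopologicalSpace.IsSeparable.iUnion fun n => ?_
    exact TopologicalSpace.isSeparable_range (F.continuous_gen n)
  have h2 : TopologicalSpace.IsSeparable (F.span : Set (Amb H X)) := h1.span
  have h3 : TopologicalSpace.IsSeparable (F.alg : Set (Amb H X)) := by
    rw [F.coe_alg]
    exact h2.closure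
  exact h3.separableSpace

/-- no quotient of the algebra has a unit: hypothesis on the fibres -/
def Fld.Inf : Prop := ∀ (x : X) (s : Finset H), ∃ u : H, F.V x u ≠ 0 ∧
  ∀ v ∈ s, inner ℂ (F.V x v) (F.V x u) = 0

lemma Fld.continuous_coef {a : Amb H X} (ha : a ∈ F.alg) (n : ℕ) (u v : H) :
    Continuous fun x => inner ℂ (F.V x u) (a (n, x) (F.V x v)) := by
  have hspan : ∀ b ∈ F.span, Continuous fun x => inner ℂ (F.V x u) (b (n, x) (F.V x v)) := by
    intro b hb
    induction hb using Submodule.span_induction with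
    | mem b hb =>
      obtain ⟨⟨m, f, w, z⟩, rfl⟩ := hb
      by_cases h : n = m
      · subst h
        simp only [F.gen_apply_self]
        have : (fun x => inner ℂ (F.V x u) ((f x • rk (F.V x w) (F.V x z)) (F.V x v))) =
            fun x => f x * (F.ker z v x * F.ker u w x) := by
          funext x
          change inner ℂ (F.V x u) (f x • (inner ℂ (F.V x z) (F.V x v) • F.V x w)) = _
          rw [inner_smul_right, inner_smul_right]
          rfl
        rw [this]
        fun_prop
      · simp only [F.gen_apply_ne h]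
        simp only [zero_apply, inner_zero_right]
        exact continuous_const
    | zero =>
      simp only [amb_zero_apply, zero_apply, inner_zero_right]
      exact continuous_const
    | add b c _ _ h1 h2 =>
      simp only [amb_add_apply, add_apply, inner_add_right]
      exact h1.add h2
    | smul c b _ h =>
      simp only [amb_smul_apply, smul_apply, inner_smul_right]
      exact continuous_const.mul h
  refine Metric.continuous_iff'.2 fun x₀ ε hε => ?_
  set C : ℝ := ‖u‖ * ‖v‖ + 1 with hC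
  have hCpos : 0 < C := by positivity
  obtain ⟨b, hb, hab⟩ := F.exists_approx ha (ε := ε / 3 / C) (by positivity)
  have hclose : ∀ x, ‖inner ℂ (F.V x u) (a (n, x) (F.V x v)) -
      inner ℂ (F.V x u) (b (n, x) (F.V x v))‖ ≤ ε / 3 := by
    intro x
    rw [← inner_sub_right]
    refine (norm_inner_le_norm _ _).trans ?_
    have h1 : ‖a (n, x) (F.V x v) - b (n, x) (F.V x v)‖ ≤ ε / 3 / C * ‖v‖ := by
      have h2 : a (n, x) (F.V x v) - b (n, x) (F.V x v) = ((a - b : Amb H X) (n, x)) (F.V x v) := by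
        rw [amb_sub_apply]; rfl
      rw [h2]
      refine (ContinuousLinearMap.le_opNorm _ _).trans ?_
      exact mul_le_mul ((amb_norm_apply_le _ _).trans hab.le) (F.norm_le _ _) (norm_nonneg _)
        (by positivity)
    calc ‖F.V x u‖ * ‖a (n, x) (F.V x v) - b (n, x) (F.V x v)‖
        ≤ ‖u‖ * (ε / 3 / C * ‖v‖) := mul_le_mul (F.norm_le _ _) h1 (norm_nonneg _) (norm_nonneg _)
      _ = ε / 3 / C * (‖u‖ * ‖v‖) := by ring
      _ ≤ ε / 3 / C * C := by
          refine mul_le_mul_of_nonneg_left ?_ (by positivity)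
          rw [hC]; linarith
      _ = ε / 3 := by field_simp
  filter_upwards [Metric.continuous_iff'.1 (hspan b hb) x₀ (ε / 3) (by positivity)] with x hx
  rw [dist_eq_norm] at hx ⊢
  have h1 := hclose x
  have h2 := hclose x₀
  rw [norm_sub_rev] at h2
  calc ‖inner ℂ (F.V x u) (a (n, x) (F.V x v)) - inner ℂ (F.V x₀ u) (a (n, x₀) (F.V x₀ v))‖
      = ‖(inner ℂ (F.V x u) (a (n, x) (F.V x v)) - inner ℂ (F.V x u) (b (n, x) (F.V x v)))
        + (inner ℂ (F.V x u) (b (n, x) (F.V x v)) - inner ℂ (F.V x₀ u) (b (n, x₀) (F.V x₀ v)))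
        + (inner ℂ (F.V x₀ u) (b (n, x₀) (F.V x₀ v)) -
            inner ℂ (F.V x₀ u) (a (n, x₀) (F.V x₀ v)))‖ := by
        congr 1; ring
    _ ≤ ε / 3 + ‖inner ℂ (F.V x u) (b (n, x) (F.V x v)) -
          inner ℂ (F.V x₀ u) (b (n, x₀) (F.V x₀ v))‖ + ε / 3 := by
        refine (norm_add_le _ _).trans (add_le_add ((norm_add_le _ _).trans
          (add_le_add h1 le_rfl)) h2)
    _ < ε := by linarith

/-- No quotient of the algebra by a proper closed ideal has a unit. -/
theorem Fld.ideal_eq_top (hF : F.Inf) (I : TwoSidedIdeal F.alg)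
    (hI : IsClosed (I : Set F.alg)) (e : F.alg) (he : ∀ a : F.alg, e * a - a ∈ I) : I = ⊤ := by
  -- the functions `c_u`
  have hc : ∀ (n : ℕ) (u : H), Continuous fun x =>
      inner ℂ (F.V x u) (F.V x u) - inner ℂ (F.V x u) ((e : Amb H X) (n, x) (F.V x u)) :=
    fun n u => (F.cont u u).sub (F.continuous_coef e.2 n u u)
  let c : ℕ → H → C(X, ℂ) := fun n u => ⟨_, hc n u⟩
  have hcapp : ∀ n u x, c n u x =
      inner ℂ (F.V x u) (F.V x u) - inner ℂ (F.V x u) ((e : Amb H X) (n, x) (F.V x u)) :=
    fun _ _ _ => rfl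
  -- the corresponding generators belong to the ideal
  have hmem : ∀ (n : ℕ) (f : C(X, ℂ)) (w u u' : H),
      (⟨F.gen n (f * c n u) w u', F.gen_mem_alg _ _ _ _⟩ : F.alg) ∈ I := by
    intro n f w u u'
    have h1 := he ⟨F.gen n f u u', F.gen_mem_alg _ _ _ _⟩
    have h2 := I.neg_mem (I.mul_mem_left ⟨F.gen n 1 w u, F.gen_mem_alg _ _ _ _⟩ _ h1)
    convert h2 using 1
    apply Subtype.ext
    refine amb_ext fun m x => ?_
    change (F.gen n (f * c n u) w u') (m, x) =
      (-(F.gen n 1 w u * ((e : Amb H X) * F.gen n f u u' - F.gen n f u u')) : Amb H X) (m, x)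
    rw [amb_neg_apply, amb_mul_apply, amb_sub_apply, amb_mul_apply]
    by_cases h : m = n
    · subst h
      simp only [F.gen_apply_self]
      ext v
      change (f x * c m u x) • (inner ℂ (F.V x u') v • F.V x w) =
        -((1 : ℂ) • (inner ℂ (F.V x u) ((e : Amb H X) (m, x) (f x • (inner ℂ (F.V x u') v • F.V x u)) -
          f x • (inner ℂ (F.V x u') v • F.V x u)) • F.V x w))
      rw [hcapp]
      simp only [map_smul, inner_sub_right, inner_smul_right, smul_smul, ← neg_smul]
      congr 1
      ring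
    · simp only [F.gen_apply_ne h, zero_mul, neg_zero]
  -- at every point one of the functions does not vanish
  have hne : ∀ (n : ℕ) (x : X), ∃ u, c n u x ≠ 0 := by
    intro n x
    obtain ⟨b, hb, hab⟩ := F.exists_approx e.2 (ε := 1 / 2) (by norm_num)
    -- the finitely many vectors which occur in `b`
    have key : ∀ b ∈ F.span, ∃ s : Finset H, ∀ u : H,
        (∀ v ∈ s, inner ℂ (F.V x v) (F.V x u) = 0) → b (n, x) (F.V x u) = 0 := by
      intro b hb
      induction hb using Submodule.span_induction with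
      | mem b hb =>
        obtain ⟨⟨m, f, w, z⟩, rfl⟩ := hb
        refine ⟨{z}, fun u hu => ?_⟩
        by_cases h : n = m
        · subst h
          simp only [F.gen_apply_self]
          change f x • (inner ℂ (F.V x z) (F.V x u) • F.V x w) = 0
          rw [hu z (by simp), zero_smul, smul_zero]
        · simp only [F.gen_apply_ne h]
          rfl
      | zero => exact ⟨∅, fun u _ => by rw [amb_zero_apply]; rfl⟩
      | add b c _ _ h1 h2 =>
        obtain ⟨s, hs⟩ := h1
        obtain ⟨t, ht⟩ := h2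
        classical
        refine ⟨s ∪ t, fun u hu => ?_⟩
        rw [amb_add_apply, add_apply, hs u (fun v hv => hu v (Finset.mem_union_left _ hv)),
          ht u (fun v hv => hu v (Finset.mem_union_right _ hv)), add_zero]
      | smul c b _ h =>
        obtain ⟨s, hs⟩ := h
        exact ⟨s, fun u hu => by rw [amb_smul_apply, smul_apply, hs u hu, smul_zero]⟩
    obtain ⟨s, hs⟩ := key b hb
    obtain ⟨u, hu0, hu⟩ := hF x s
    refine ⟨u, fun h0 => ?_⟩
    rw [hcapp] at h0
    have h1 : (e : Amb H X) (n, x) (F.V x u) = (((e : Amb H X) - b : Amb H X) (n, x)) (F.V x u) := by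
      rw [amb_sub_apply, sub_apply, hs u hu, sub_zero]
    have h2 : ‖(e : Amb H X) (n, x) (F.V x u)‖ ≤ 1 / 2 * ‖F.V x u‖ := by
      rw [h1]
      refine (ContinuousLinearMap.le_opNorm _ _).trans ?_
      exact mul_le_mul_of_nonneg_right ((amb_norm_apply_le _ _).trans hab.le) (norm_nonneg _)
    have h3 : ‖inner ℂ (F.V x u) (F.V x u)‖ = ‖F.V x u‖ * ‖F.V x u‖ := by
      rw [inner_self_eq_norm_sq_to_K, sq]
      simp
    have h4 : inner ℂ (F.V x u) (F.V x u) = inner ℂ (F.V x u) ((e : Amb H X) (n, x) (F.V x u)) :=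
      sub_eq_zero.1 h0
    have h5 : ‖F.V x u‖ * ‖F.V x u‖ ≤ ‖F.V x u‖ * (1 / 2 * ‖F.V x u‖) := by
      rw [← h3, h4]
      exact (norm_inner_le_norm _ _).trans (mul_le_mul_of_nonneg_left h2 (norm_nonneg _))
    have h6 : 0 < ‖F.V x u‖ := norm_pos_iff.2 hu0
    nlinarith
  -- all generators belong to the ideal
  have hgen : ∀ (n : ℕ) (f : C(X, ℂ)) (w u' : H),
      (⟨F.gen n f w u', F.gen_mem_alg _ _ _ _⟩ : F.alg) ∈ I := by
    intro n f w u'
    choose u hu using hne n
    obtain ⟨t, ht⟩ := isCompact_univ.elim_finite_subcover (fun x : X => {y | c n (u x) y ≠ 0})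
      (fun x => isOpen_ne_fun (c n (u x)).continuous continuous_const)
      (fun x _ => Set.mem_iUnion.2 ⟨x, hu x⟩)
    have hD : ∀ y, ∑ x ∈ t, star (c n (u x) y) * c n (u x) y ≠ 0 := by
      intro y
      have h1 : ∑ x ∈ t, star (c n (u x) y) * c n (u x) y =
          ((∑ x ∈ t, ‖c n (u x) y‖ ^ 2 : ℝ) : ℂ) := by
        push_cast
        refine Finset.sum_congr rfl fun x _ => ?_
        exact Complex.conj_mul' _
      rw [h1]
      have hy := ht (Set.mem_univ y)
      simp only [Set.mem_iUnion] at hy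
      obtain ⟨x, hx, hxy⟩ := hy
      have h2 : 0 < ∑ x ∈ t, ‖c n (u x) y‖ ^ 2 :=
        Finset.sum_pos' (fun _ _ => by positivity)
          ⟨x, hx, pow_pos (norm_pos_iff.2 hxy) 2⟩
      exact_mod_cast h2.ne'
    let D : C(X, ℂ) := ∑ x ∈ t, star (c n (u x)) * c n (u x)
    have hDapp : ∀ y, D y = ∑ x ∈ t, star (c n (u x) y) * c n (u x) y := by
      intro y
      simp [D]
    have hD' : ∀ y, D y ≠ 0 := fun y => by rw [hDapp]; exact hD y
    let Di : C(X, ℂ) := ⟨fun y => (D y)⁻¹, D.continuous.inv₀ hD'⟩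
    have hf : f = ∑ x ∈ t, (f * Di * star (c n (u x))) * c n (u x) := by
      ext y
      rw [ContinuousMap.sum_apply]
      have : ∀ x ∈ t, ((f * Di * star (c n (u x))) * c n (u x)) y =
          (f y * (D y)⁻¹) * (star (c n (u x) y) * c n (u x) y) := by
        intro x _
        simp only [ContinuousMap.mul_apply, ContinuousMap.star_apply, Di, ContinuousMap.coe_mk]
        ring
      rw [Finset.sum_congr rfl this, ← Finset.mul_sum, ← hDapp, mul_assoc, inv_mul_cancel₀ (hD' y),
        mul_one]
    have hsum : ∀ (s : Finset X), (⟨F.gen n (∑ x ∈ s, (f * Di * star (c n (u x))) * c n (u x)) w u',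
        F.gen_mem_alg _ _ _ _⟩ : F.alg) ∈ I := by
      intro s
      classical
      induction s using Finset.induction_on with
      | empty =>
        have h0 : (⟨F.gen n (∑ x ∈ (∅ : Finset X), (f * Di * star (c n (u x))) * c n (u x)) w u',
            F.gen_mem_alg _ _ _ _⟩ : F.alg) = 0 := by
          apply Subtype.ext
          change F.gen n (∑ x ∈ (∅ : Finset X), (f * Di * star (c n (u x))) * c n (u x)) w u' = 0
          rw [Finset.sum_empty]
          have := F.smul_gen n 0 (0 : C(X, ℂ)) w u'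
          rw [zero_smul, smul_zero] at this
          exact this.symm
        rw [h0]
        exact I.zero_mem
      | insert x s hx ih =>
        have h0 : (⟨F.gen n (∑ x ∈ insert x s, (f * Di * star (c n (u x))) * c n (u x)) w u',
            F.gen_mem_alg _ _ _ _⟩ : F.alg) =
            (⟨F.gen n ((f * Di * star (c n (u x))) * c n (u x)) w u',
              F.gen_mem_alg _ _ _ _⟩ : F.alg) +
            (⟨F.gen n (∑ x ∈ s, (f * Di * star (c n (u x))) * c n (u x)) w u',
              F.gen_mem_alg _ _ _ _⟩ : F.alg) := by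
          apply Subtype.ext
          change F.gen n (∑ x ∈ insert x s, (f * Di * star (c n (u x))) * c n (u x)) w u' =
            F.gen n ((f * Di * star (c n (u x))) * c n (u x)) w u' +
            F.gen n (∑ x ∈ s, (f * Di * star (c n (u x))) * c n (u x)) w u'
          rw [Finset.sum_insert hx, F.gen_add]
        rw [h0]
        exact I.add_mem (hmem _ _ _ _ _) ih
    have := hsum t
    rw [← hf] at this
    exact this
  -- the span is contained in the ideal
  have hspan : ∀ b, ∀ hb : b ∈ F.span, ∀ z : ℂ,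
      (⟨z • b, F.span_le_alg (Submodule.smul_mem _ z hb)⟩ : F.alg) ∈ I := by
    intro b hb
    induction hb using Submodule.span_induction with
    | mem b hb =>
      intro z
      obtain ⟨⟨m, f, w, u⟩, rfl⟩ := hb
      have h0 : (⟨z • F.gen m f w u, F.span_le_alg (Submodule.smul_mem _ z
          (F.gen_mem_span m f w u))⟩ : F.alg) =
          ⟨F.gen m (z • f) w u, F.gen_mem_alg _ _ _ _⟩ := Subtype.ext (F.smul_gen _ _ _ _ _)
      exact h0 ▸ hgen m (z • f) w u
    | zero =>
      intro z
      have h0 : (⟨z • (0 : Amb H X), F.span_le_alg (Submodule.smul_mem _ z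
          (zero_mem _))⟩ : F.alg) = 0 := Subtype.ext (smul_zero _)
      exact h0 ▸ I.zero_mem
    | add b c hb hc' h1 h2 =>
      intro z
      have h0 : (⟨z • (b + c), F.span_le_alg (Submodule.smul_mem _ z
          (add_mem hb hc'))⟩ : F.alg) = ⟨z • b, F.span_le_alg (Submodule.smul_mem _ z hb)⟩ +
            ⟨z • c, F.span_le_alg (Submodule.smul_mem _ z hc')⟩ := Subtype.ext (smul_add _ _ _)
      exact h0 ▸ I.add_mem (h1 z) (h2 z)
    | smul y b hb h =>
      intro z
      have h0 : (⟨z • (y • b), F.span_le_alg (Submodule.smul_mem _ z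
          (Submodule.smul_mem _ y hb))⟩ : F.alg) =
            ⟨(z * y) • b, F.span_le_alg (Submodule.smul_mem _ _ hb)⟩ :=
        Subtype.ext (smul_smul _ _ _)
      exact h0 ▸ h (z * y)
  -- conclusion
  rw [eq_top_iff]
  intro a _
  have ha : a ∈ closure (I : Set F.alg) := by
    rw [Metric.mem_closure_iff]
    intro ε hε
    obtain ⟨b, hb, hab⟩ := F.exists_approx a.2 hε
    have h1 := hspan b hb 1
    refine ⟨_, h1, ?_⟩
    rw [Subtype.dist_eq, dist_eq_norm]
    change ‖(a : Amb H X) - (1 : ℂ) • b‖ < ε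
    rw [one_smul]
    exact hab
  rw [hI.closure_eq] at ha
  exact ha

end

end Pool.Agent.AFCor
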