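import Mathlib
import Pool.Agent.AFCor.Basic
import Pool.Agent.AFCor.Defs
import Pool.Agent.AFCor.Quot
import Pool.Agent.AFCor.Mat

/-!
# The algebra is not AF
-/

open scoped ENNReal InnerProductSpace

set_option linter.unusedSectionVars false

namespace Pool.Agent.AFCor

section general

variable {A : Type} [NonUnitalCStarAlgebra A]

/-- elements of finite dimensional subalgebras have finite quasispectrum -/
lemma quasispectrum_finite (S : NonUnitalStarSubalgebra ℂ A) [FiniteDimensional ℂ S]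
    {b : A} (hb : b ∈ S) : (quasispectrum ℂ b).Finite := by
  let f : S →ₙₐ[ℂ] A := (NonUnitalSubalgebraClass.subtype S : S →ₙₐ[ℂ] A)
  let g : Unitization ℂ S →ₐ[ℂ] Unitization ℂ A :=
    Unitization.lift ((Unitization.inrNonUnitalAlgHom ℂ A).comp f)
  let x : Unitization ℂ S := ((⟨b, hb⟩ : S) : Unitization ℂ S)
  have hgx : g x = (b : Unitization ℂ A) := by
    simp [g, x, f]
    rfl
  have : FiniteDimensional ℂ (Unitization ℂ S) := by
    let e : (ℂ × S) →ₗ[ℂ] Unitization ℂ S :=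
      { toFun := fun p => (Unitization.inl p.1 : Unitization ℂ S) + ((p.2 : S) : Unitization ℂ S)
        map_add' := fun p q => by
          rw [Prod.fst_add, Prod.snd_add, Unitization.inl_add, Unitization.inr_add]
          abel
        map_smul' := fun c p => by
          rw [Prod.smul_fst, Prod.smul_snd, Unitization.inl_smul, Unitization.inr_smul, smul_add]
          rfl }
    refine Module.Finite.of_surjective e fun y => ⟨(y.fst, y.snd), ?_⟩
    exact Unitization.inl_fst_add_inr_snd_eq y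
  have hx : IsIntegral ℂ x := Algebra.IsIntegral.isIntegral x
  obtain ⟨p, hp, hpx⟩ := hx
  have h1 : Polynomial.aeval (b : Unitization ℂ A) p = 0 := by
    rw [← hgx, Polynomial.aeval_algHom_apply, Polynomial.aeval_def, hpx, map_zero]
  rw [Unitization.quasispectrum_eq_spectrum_inr]
  refine (p.roots.toFinset.finite_toSet).subset fun z hz => ?_
  have h2 : Polynomial.eval z p ∈ spectrum ℂ (Polynomial.aeval (b : Unitization ℂ A) p) :=
    spectrum.subset_polynomial_aeval _ p ⟨z, hz, rfl⟩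
  rw [h1] at h2
  have h3 : Polynomial.eval z p = 0 := by
    have : spectrum ℂ (0 : Unitization ℂ A) = {0} := spectrum.zero_eq
    rw [this] at h2
    exact h2
  simp [Polynomial.mem_roots hp.ne_zero, h3]

/-- the spectral projection -/
lemma exists_proj (S : NonUnitalStarSubalgebra ℂ A) [FiniteDimensional ℂ S]
    {b : A} (hb : b ∈ S) (hbs : IsSelfAdjoint b) :
    ∃ q c : A, q * q = q ∧ star q = q ∧ q * b = b * q ∧ q = c * (b * q) ∧ ‖c‖ ≤ 2 ∧
      ‖b - b * q‖ ≤ 1 / 2 ∧ ‖q‖ ≤ 1 := by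
  have hfin := quasispectrum_finite S hb
  have hn : IsStarNormal b := hbs.isStarNormal
  let χ : ℂ → ℂ := fun z => if 1 / 2 < ‖z‖ then 1 else 0
  let κ : ℂ → ℂ := fun z => if 1 / 2 < ‖z‖ then z⁻¹ else 0
  have hχ0 : χ 0 = 0 := by simp [χ]
  have hκ0 : κ 0 = 0 := by simp [κ]
  have hcont : ∀ f : ℂ → ℂ, ContinuousOn f (quasispectrum ℂ b) := fun f => hfin.continuousOn f
  have e1 : cfcₙ χ b * cfcₙ χ b = cfcₙ χ b := by
    rw [← cfcₙ_mul χ χ b (hcont _) hχ0 (hcont _) hχ0]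
    congr 1
    funext z
    simp only [χ]
    split_ifs <;> simp
  have e2 : b * cfcₙ χ b = cfcₙ (fun z => z * χ z) b := by
    rw [cfcₙ_mul (fun z => z) χ b (hcont _) rfl (hcont _) hχ0, cfcₙ_id' ℂ b]
  have e3 : cfcₙ χ b * b = cfcₙ (fun z => χ z * z) b := by
    rw [cfcₙ_mul χ (fun z => z) b (hcont _) hχ0 (hcont _) rfl, cfcₙ_id' ℂ b]
  refine ⟨cfcₙ χ b, cfcₙ κ b, e1, ?_, ?_, ?_, ?_, ?_, ?_⟩
  · rw [← cfcₙ_star]
    congr 1
    funext z
    simp only [χ]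
    split_ifs <;> simp
  · rw [e2, e3]
    congr 1
    funext z
    ring
  · rw [e2, ← cfcₙ_mul κ (fun z => z * χ z) b (hcont _) hκ0 (hcont _) (by simp)]
    congr 1
    funext z
    simp only [χ, κ]
    split_ifs with h
    · have : z ≠ 0 := by
        intro h0; rw [h0, norm_zero] at h; norm_num at h
      field_simp
    · simp
  · refine norm_cfcₙ_le fun z _ => ?_
    simp only [κ]
    split_ifs with h
    · rw [norm_inv]
      have h2 : (‖z‖)⁻¹ ≤ (1 / 2 : ℝ)⁻¹ := inv_anti₀ (by norm_num) h.le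
      simpa using h2
    · simp
  · have h1 : b - b * cfcₙ χ b = cfcₙ (fun z => z - z * χ z) b := by
      rw [cfcₙ_sub (fun z => z) (fun z => z * χ z) b (hcont _) rfl (hcont _) (by simp),
        cfcₙ_id' ℂ b, e2]
    rw [h1]
    refine norm_cfcₙ_le fun z _ => ?_
    simp only [χ]
    split_ifs with h
    · simp
    · simpa using not_lt.1 h
  · refine norm_cfcₙ_le fun z _ => ?_
    simp only [χ]
    split_ifs <;> simp

lemma sa_approx {a b₀ : A} (ha : star a = a) {ε : ℝ} (h : dist a b₀ ≤ ε) :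
    IsSelfAdjoint ((1 / 2 : ℂ) • (b₀ + star b₀)) ∧ ‖(1 / 2 : ℂ) • (b₀ + star b₀) - a‖ ≤ ε := by
  constructor
  · rw [IsSelfAdjoint, star_smul, star_add, star_star, add_comm]
    congr 1
    simp
  · have h1 : (1 / 2 : ℂ) • (b₀ + star b₀) - a = (1 / 2 : ℂ) • ((b₀ - a) + star (b₀ - a)) := by
      rw [star_sub, ha]
      module
    have h2 : ‖b₀ - a‖ ≤ ε := by
      rw [← dist_eq_norm, dist_comm]; exact h
    rw [h1, norm_smul]
    have h3 : ‖(b₀ - a) + star (b₀ - a)‖ ≤ ε + ε :=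
      (norm_add_le _ _).trans (add_le_add h2 (by rw [norm_star]; exact h2))
    have h4 : ‖(1 / 2 : ℂ)‖ = 1 / 2 := by norm_num
    rw [h4]
    linarith

end general

section

variable {H : Type} [NormedAddCommGroup H] [InnerProductSpace ℂ H] [CompleteSpace H]
  {X : Type} [TopologicalSpace X] [CompactSpace X] (F : Fld H X)

/-- dichotomy for the compression of the spectral projection -/
lemma dichotomy {B Q : H →L[ℂ] H} (hQQ : ∀ v, Q (Q v) = Q v)
    (hQs : ∀ v w, inner ℂ (Q v) w = inner ℂ v (Q w)) (hQB : ∀ v, Q (B v) = B (Q v))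
    (hQ1 : ∀ v, ‖Q v‖ ≤ ‖v‖) (hlow : ∀ v, ‖Q v‖ ≤ 2 * ‖B (Q v)‖) {η : H} (hη : ‖η‖ = 1)
    {t : ℂ} (hB : ‖B - t • rk η η‖ ≤ 1 / 8) : ‖Q η‖ ^ 2 = 0 ∨ 15 / 16 ≤ ‖Q η‖ ^ 2 := by
  set η₁ := Q η with h₁
  set η₂ := η - Q η with h₂
  have horth : inner ℂ η₁ η₂ = (0 : ℂ) := by
    rw [h₁, h₂, hQs, map_sub, hQQ, sub_self, inner_zero_right]
  have horth' : inner ℂ η₂ η₁ = (0 : ℂ) := inner_eq_zero_symm.1 horth
  have hsum : ‖η₁‖ ^ 2 + ‖η₂‖ ^ 2 = 1 := by
    have h := norm_add_sq_eq_norm_sq_add_norm_sq_of_inner_eq_zero η₁ η₂ horth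
    have h3 : η₁ + η₂ = η := by rw [h₁, h₂]; abel
    rw [h3, hη] at h
    nlinarith
  set a := ‖η₁‖ ^ 2 with ha
  set c := ‖η₂‖ ^ 2 with hc
  have ha0 : 0 ≤ a := by positivity
  have hc0 : 0 ≤ c := by positivity
  set w := (c : ℂ) • η₁ - (a : ℂ) • η₂ with hw
  have hηw : inner ℂ η w = (0 : ℂ) := by
    have h3 : η = η₁ + η₂ := by rw [h₁, h₂]; abel
    rw [hw]
    conv_lhs => rw [h3]
    simp only [inner_add_left, inner_sub_right, inner_smul_right, horth, horth',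
      inner_self_eq_norm_sq_to_K]
    rw [ha, hc]
    push_cast
    simp
    ring
  have hQw : Q w = (c : ℂ) • η₁ := by
    rw [hw, map_sub, map_smul, map_smul, h₁, h₂, map_sub, hQQ, sub_self, smul_zero, sub_zero]
  have hnQw : ‖Q w‖ ^ 2 = c ^ 2 * a := by
    rw [hQw, norm_smul, mul_pow, ← ha, Complex.norm_real, Real.norm_eq_abs, sq_abs]
  have hnw : ‖w‖ ^ 2 = a * c := by
    have h3 : inner ℂ ((c : ℂ) • η₁) (-((a : ℂ) • η₂)) = (0 : ℂ) := by
      rw [inner_neg_right, inner_smul_left, inner_smul_right, horth]; simp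
    have h := norm_add_sq_eq_norm_sq_add_norm_sq_of_inner_eq_zero _ _ h3
    rw [← sub_eq_add_neg, ← hw, norm_neg, norm_smul, norm_smul, Complex.norm_real,
      Complex.norm_real, Real.norm_eq_abs, Real.norm_eq_abs, abs_of_nonneg ha0,
      abs_of_nonneg hc0] at h
    have h5 : ‖w‖ ^ 2 = c ^ 2 * ‖η₁‖ ^ 2 + a ^ 2 * ‖η₂‖ ^ 2 := by nlinarith
    rw [h5, ← ha, ← hc]
    have : c ^ 2 * a + a ^ 2 * c = a * c * (a + c) := by ring
    rw [this, hsum, mul_one]
  have hBw : ‖B w‖ ≤ 1 / 8 * ‖w‖ := by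
    have h3 : B w = (B - t • rk η η) w := by
      rw [sub_apply, smul_apply, rk_apply, hηw, zero_smul, smul_zero, sub_zero]
    rw [h3]
    exact (ContinuousLinearMap.le_opNorm _ _).trans
      (mul_le_mul_of_nonneg_right hB (norm_nonneg _))
  have hkey : ‖Q w‖ ≤ 1 / 4 * ‖w‖ := by
    have h3 := hlow w
    rw [← hQB] at h3
    have h4 := hQ1 (B w)
    linarith
  have hkey2 : c ^ 2 * a ≤ 1 / 16 * (a * c) := by
    rw [← hnQw, ← hnw]
    have h3 : ‖Q w‖ ^ 2 ≤ (1 / 4 * ‖w‖) ^ 2 := pow_le_pow_left₀ (norm_nonneg _) hkey 2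
    nlinarith
  rcases ha0.eq_or_lt with h0 | h0
  · exact Or.inl h0.symm
  · right
    rcases hc0.eq_or_lt with h1 | h1
    · rw [← h1] at hsum; linarith
    · have h5 : c ≤ 1 / 16 := by
        have h6 : 0 < a * c := by positivity
        have h7 : c * (a * c) ≤ 1 / 16 * (a * c) := by nlinarith
        exact le_of_mul_le_mul_right h7 h6
      linarith

/-- The algebra of a field over a connected space which splits off a unit vector is not AF. -/
theorem Fld.not_isAF [PreconnectedSpace X] {ξ : H} (hξ : F.Split ξ) (f : C(X, ℂ))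
    (hf0 : ∃ x, f x = 0) (hf1 : ∃ x, f x = 1) (hfr : star f = f) : ¬ IsAF F.alg := by
  rintro ⟨S, -, hfin, hdense⟩
  set a : F.alg := ⟨F.gen 0 f ξ ξ, F.gen_mem_alg _ _ _ _⟩ with ha
  have hastar : star a = a := by
    apply Subtype.ext
    change star (F.gen 0 f ξ ξ) = F.gen 0 f ξ ξ
    rw [F.star_gen, hfr]
  -- approximation by a self-adjoint element of a finite dimensional subalgebra
  obtain ⟨b₀, hb₀, hab₀⟩ : ∃ b ∈ ⋃ n, (S n : Set F.alg), dist a b < 1 / 8 :=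
    Metric.mem_closure_iff.1 (hdense ▸ Set.mem_univ a) (1 / 8) (by norm_num)
  obtain ⟨n, hn⟩ := Set.mem_iUnion.1 hb₀
  set b : F.alg := (1 / 2 : ℂ) • (b₀ + star b₀) with hb
  have hbS : b ∈ S n := SMulMemClass.smul_mem _ (add_mem hn (star_mem hn))
  obtain ⟨hbs, hab⟩ := sa_approx (A := F.alg) hastar hab₀.le
  have := hfin n
  obtain ⟨q, c, hqq, hqs, hqb, hqc, hc, hbq, hq1⟩ := exists_proj (S n) hbS hbs
  -- pointwise consequences
  let B : X → H →L[ℂ] H := fun x => (b : Amb H X) (0, x)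
  let Q : X → H →L[ℂ] H := fun x => (q : Amb H X) (0, x)
  let C : X → H →L[ℂ] H := fun x => (c : Amb H X) (0, x)
  have pQQ : ∀ x v, Q x (Q x v) = Q x v := by
    intro x v
    have h1 : ((q * q : F.alg) : Amb H X) (0, x) v = (q : Amb H X) (0, x) v := by rw [hqq]
    exact h1
  have pQs : ∀ x v w, inner ℂ (Q x v) w = inner ℂ v (Q x w) := by
    intro x v w
    have h1 : ((star q : F.alg) : Amb H X) (0, x) = (q : Amb H X) (0, x) := by rw [hqs]
    have h2 : star (Q x) = Q x := h1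
    rw [ContinuousLinearMap.star_eq_adjoint] at h2
    rw [← ContinuousLinearMap.adjoint_inner_right, h2]
  have pQB : ∀ x v, Q x (B x v) = B x (Q x v) := by
    intro x v
    have h1 : ((q * b : F.alg) : Amb H X) (0, x) v = ((b * q : F.alg) : Amb H X) (0, x) v := by
      rw [hqb]
    exact h1
  have nle : ∀ (t : F.alg) x, ‖(t : Amb H X) (0, x)‖ ≤ ‖t‖ := fun t x =>
    amb_norm_apply_le (t : Amb H X) (0, x)
  have pQ1 : ∀ x v, ‖Q x v‖ ≤ ‖v‖ := by
    intro x v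
    refine (ContinuousLinearMap.le_opNorm _ _).trans ?_
    have := (nle q x).trans hq1
    calc ‖Q x‖ * ‖v‖ ≤ 1 * ‖v‖ := mul_le_mul_of_nonneg_right this (norm_nonneg _)
      _ = ‖v‖ := one_mul _
  have plow : ∀ x v, ‖Q x v‖ ≤ 2 * ‖B x (Q x v)‖ := by
    intro x v
    have h1 : (q : Amb H X) (0, x) v = ((c * (b * q) : F.alg) : Amb H X) (0, x) v := by
      rw [← hqc]
    have h2 : Q x v = C x (B x (Q x v)) := h1
    calc ‖Q x v‖ = ‖C x (B x (Q x v))‖ := by rw [← h2]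
      _ ≤ ‖C x‖ * ‖B x (Q x v)‖ := ContinuousLinearMap.le_opNorm _ _
      _ ≤ 2 * ‖B x (Q x v)‖ := mul_le_mul_of_nonneg_right ((nle c x).trans hc) (norm_nonneg _)
  have pB : ∀ x, ‖B x - f x • rk (F.V x ξ) (F.V x ξ)‖ ≤ 1 / 8 := by
    intro x
    have h1 := (nle (b - a) x).trans hab
    have h2 : ((b - a : F.alg) : Amb H X) (0, x) = B x - f x • rk (F.V x ξ) (F.V x ξ) := by
      change ((b : Amb H X) - F.gen 0 f ξ ξ : Amb H X) (0, x) = _
      rw [amb_sub_apply, F.gen_apply_self]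
    rwa [h2] at h1
  have pBQ : ∀ x v, ‖B x v - B x (Q x v)‖ ≤ 1 / 2 * ‖v‖ := by
    intro x v
    have h1 := (nle (b - b * q) x).trans hbq
    have h2 : ((b - b * q : F.alg) : Amb H X) (0, x) v = B x v - B x (Q x v) := by
      change ((b : Amb H X) - (b : Amb H X) * (q : Amb H X) : Amb H X) (0, x) v = _
      rw [amb_sub_apply, amb_mul_apply]
      rfl
    rw [← h2]
    exact (ContinuousLinearMap.le_opNorm _ _).trans (mul_le_mul_of_nonneg_right h1 (norm_nonneg _))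
  have hdich : ∀ x, ‖Q x (F.V x ξ)‖ ^ 2 = 0 ∨ 15 / 16 ≤ ‖Q x (F.V x ξ)‖ ^ 2 := fun x =>
    dichotomy (pQQ x) (pQs x) (pQB x) (pQ1 x) (plow x) (hξ.norm_V (F := F) x) (pB x)
  -- continuity
  have hψ : ∀ x, ((‖Q x (F.V x ξ)‖ ^ 2 : ℝ)) =
      (inner ℂ (F.V x ξ) ((q : Amb H X) (0, x) (F.V x ξ)) : ℂ).re := by
    intro x
    have h1 : inner ℂ (F.V x ξ) (Q x (F.V x ξ)) =
        inner ℂ (Q x (F.V x ξ)) (Q x (F.V x ξ)) := by
      rw [pQs, pQQ]
    change _ = (inner ℂ (F.V x ξ) (Q x (F.V x ξ)) : ℂ).re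
    rw [h1, inner_self_eq_norm_sq_to_K]
    norm_cast
  have hcont : Continuous fun x => ‖Q x (F.V x ξ)‖ ^ 2 := by
    simp only [hψ]
    exact Complex.continuous_re.comp (F.continuous_coef q.2 0 ξ ξ)
  obtain ⟨x₀, hx₀⟩ := hf0
  obtain ⟨x₁, hx₁⟩ := hf1
  have hval0 : ‖Q x₀ (F.V x₀ ξ)‖ ^ 2 = 0 := by
    have h1 := pB x₀
    rw [hx₀, zero_smul, sub_zero] at h1
    have h2 := plow x₀ (F.V x₀ ξ)
    have h3 : ‖B x₀ (Q x₀ (F.V x₀ ξ))‖ ≤ 1 / 8 * ‖Q x₀ (F.V x₀ ξ)‖ :=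
      (ContinuousLinearMap.le_opNorm _ _).trans (mul_le_mul_of_nonneg_right h1 (norm_nonneg _))
    have h4 : ‖Q x₀ (F.V x₀ ξ)‖ = 0 := by
      have := norm_nonneg (Q x₀ (F.V x₀ ξ))
      linarith
    rw [h4]; norm_num
  have hval1 : 15 / 16 ≤ ‖Q x₁ (F.V x₁ ξ)‖ ^ 2 := by
    rcases hdich x₁ with h | h
    · exfalso
      have h0 : Q x₁ (F.V x₁ ξ) = 0 := by
        rw [← norm_eq_zero]; exact pow_eq_zero_iff (two_ne_zero) |>.1 h
      have h1 := pBQ x₁ (F.V x₁ ξ)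
      rw [h0, map_zero, sub_zero, hξ.norm_V, mul_one] at h1
      have h2 := pB x₁
      rw [hx₁, one_smul] at h2
      have h3 : ‖(B x₁ - rk (F.V x₁ ξ) (F.V x₁ ξ)) (F.V x₁ ξ)‖ ≤ 1 / 8 := by
        refine (ContinuousLinearMap.le_opNorm _ _).trans ?_
        rw [hξ.norm_V, mul_one]; exact h2
      have h4 : (B x₁ - rk (F.V x₁ ξ) (F.V x₁ ξ)) (F.V x₁ ξ) = B x₁ (F.V x₁ ξ) - F.V x₁ ξ := by
        rw [sub_apply, rk_apply, inner_self_eq_norm_sq_to_K, hξ.norm_V]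
        simp
      rw [h4] at h3
      have h5 : ‖F.V x₁ ξ‖ ≤ ‖B x₁ (F.V x₁ ξ)‖ + ‖B x₁ (F.V x₁ ξ) - F.V x₁ ξ‖ := by
        have h6 : F.V x₁ ξ = B x₁ (F.V x₁ ξ) - (B x₁ (F.V x₁ ξ) - F.V x₁ ξ) := by abel
        calc ‖F.V x₁ ξ‖ = ‖B x₁ (F.V x₁ ξ) - (B x₁ (F.V x₁ ξ) - F.V x₁ ξ)‖ := by rw [← h6]
          _ ≤ _ := norm_sub_le _ _
      rw [hξ.norm_V] at h5
      linarith
    · exact h
  obtain ⟨x, hx⟩ := mem_range_of_exists_le_of_exists_ge hcont (c := 1 / 2)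
    ⟨x₀, by rw [hval0]; norm_num⟩ ⟨x₁, by linarith⟩
  have hx' : ‖Q x (F.V x ξ)‖ ^ 2 = 1 / 2 := hx
  rcases hdich x with h | h
  · rw [h] at hx'; norm_num at hx'
  · rw [hx'] at h; norm_num at h

end

end Pool.Agent.AFCor
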