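import Mathlib
import Pool.Agent.AFCor.Basic
import Pool.Agent.AFCor.Quot
import Pool.Agent.AFCor.Mat
import Pool.Agent.Lib.Brouwer

/-!
# The weakly compact space of contractions and the Dixmier-Douady field over it
-/

open scoped ENNReal InnerProductSpace

set_option linter.unusedSectionVars false

namespace Pool.Agent.AFCor

section

variable {H : Type} [NormedAddCommGroup H] [InnerProductSpace ℂ H] [CompleteSpace H]

/-- pairs of functionals which form a contraction to `ℂ²` and vanish at `ξ` -/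
def pairSet (ξ : H) : Set (Fin 2 → WeakDual ℂ H) :=
  {φ | (∀ v, ∑ i, ‖φ i v‖ ^ 2 ≤ ‖v‖ ^ 2) ∧ ∀ i, φ i ξ = 0}

/-- the space of contractions -/
abbrev Pair (ξ : H) : Type := pairSet ξ

lemma continuous_eval (i : Fin 2) (v : H) :
    Continuous fun φ : Fin 2 → WeakDual ℂ H => φ i v :=
  (WeakDual.eval_continuous v).comp (continuous_apply i)

lemma isClosed_pairSet (ξ : H) : IsClosed (pairSet ξ) := by
  have h : pairSet ξ = (⋂ v, {φ | ∑ i, ‖φ i v‖ ^ 2 ≤ ‖v‖ ^ 2}) ∩ ⋂ i, {φ | φ i ξ = 0} := by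
    ext φ
    simp [pairSet]
  rw [h]
  refine (isClosed_iInter fun v => ?_).inter (isClosed_iInter fun i => ?_)
  · exact isClosed_le (continuous_finsetSum _ fun i _ => ((continuous_eval i v).norm.pow 2))
      continuous_const
  · exact isClosed_eq (continuous_eval i ξ) continuous_const

lemma isCompact_pairSet (ξ : H) : IsCompact (pairSet ξ) := by
  have hK : IsCompact (Set.pi Set.univ fun _ : Fin 2 =>
      (WeakDual.toStrongDual ⁻¹' Metric.closedBall (0 : StrongDual ℂ H) 1 : Set (WeakDual ℂ H))) :=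
    isCompact_univ_pi fun _ => WeakDual.isCompact_closedBall (0 : StrongDual ℂ H) 1
  refine hK.of_isClosed_subset (isClosed_pairSet ξ) fun φ hφ i _ => ?_
  change WeakDual.toStrongDual (φ i) ∈ Metric.closedBall (0 : StrongDual ℂ H) 1
  rw [mem_closedBall_zero_iff]
  refine ContinuousLinearMap.opNorm_le_bound _ zero_le_one fun v => ?_
  have h1 := hφ.1 v
  have h2 : ‖φ i v‖ ^ 2 ≤ ∑ j, ‖φ j v‖ ^ 2 :=
    Finset.single_le_sum (f := fun j => ‖φ j v‖ ^ 2) (fun j _ => by positivity) (Finset.mem_univ i)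
  rw [one_mul]
  exact abs_le_of_sq_le_sq' (h2.trans h1) (norm_nonneg _) |>.2

instance (ξ : H) : CompactSpace (Pair ξ) := isCompact_iff_compactSpace.1 (isCompact_pairSet ξ)

instance (ξ : H) [TopologicalSpace.SeparableSpace H] : SecondCountableTopology (Pair ξ) := by
  have hm : TopologicalSpace.MetrizableSpace (Pair ξ) := by
    obtain ⟨u, hu⟩ := TopologicalSpace.exists_dense_seq H
    refine Metric.PiNatEmbed.TopologicalSpace.MetrizableSpace.of_countable_separating
      (Y := fun _ : ℕ × Fin 2 => ℂ)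
      (fun p (φ : Pair ξ) => φ.1 p.2 (u p.1)) (fun p => (continuous_eval _ _).comp
        continuous_subtype_val) ?_
    intro φ ψ hne
    by_contra hcon
    push Not at hcon
    refine hne (Subtype.ext (funext fun i => ?_))
    refine DFunLike.ext'_iff.2 ?_
    exact (map_continuous (φ.1 i)).ext_on hu (map_continuous (ψ.1 i))
      (Set.eqOn_range.mpr (funext fun n => hcon (n, i)))
  have : TopologicalSpace.SeparableSpace (Pair ξ) := by
    let _ := TopologicalSpace.metrizableSpaceMetric (Pair ξ)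
    infer_instance
  let _ := TopologicalSpace.metrizableSpaceMetric (Pair ξ)
  exact UniformSpace.secondCountable_of_separable (Pair ξ)

/-- the Riesz vectors of a pair -/
noncomputable def Pair.vec {ξ : H} (x : Pair ξ) (i : Fin 2) : H :=
  (InnerProductSpace.toDual ℂ H).symm (WeakDual.toStrongDual (x.1 i))

lemma Pair.inner_vec {ξ : H} (x : Pair ξ) (i : Fin 2) (v : H) :
    inner ℂ (x.vec i) v = x.1 i v :=
  InnerProductSpace.toDual_symm_apply

lemma Pair.inner_vec' {ξ : H} (x : Pair ξ) (i : Fin 2) (v : H) :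
    inner ℂ v (x.vec i) = star (x.1 i v) := by
  rw [← x.inner_vec]; exact (inner_conj_symm _ _).symm

/-- the operators `1 - x x*` -/
noncomputable def Pair.Q {ξ : H} (x : Pair ξ) : H →L[ℂ] H := 1 - ∑ i, rk (x.vec i) (x.vec i)

lemma Pair.Q_apply {ξ : H} (x : Pair ξ) (v : H) :
    x.Q v = v - ∑ i, x.1 i v • x.vec i := by
  rw [Pair.Q, sub_apply, sum_apply]
  simp only [rk_apply, x.inner_vec]
  rfl

lemma Pair.inner_Q {ξ : H} (x : Pair ξ) (u w : H) :
    inner ℂ u (x.Q w) = inner ℂ u w - ∑ i, star (x.1 i u) * x.1 i w := by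
  rw [x.Q_apply, inner_sub_right, inner_sum]
  congr 1
  refine Finset.sum_congr rfl fun i _ => ?_
  rw [inner_smul_right, x.inner_vec', mul_comm]

lemma Pair.Q_nonneg {ξ : H} (x : Pair ξ) : 0 ≤ x.Q := by
  rw [ContinuousLinearMap.nonneg_iff_isPositive, ContinuousLinearMap.isPositive_iff_complex]
  intro v
  have h1 : inner ℂ (x.Q v) v = ((‖v‖ ^ 2 - ∑ i, ‖x.1 i v‖ ^ 2 : ℝ) : ℂ) := by
    rw [← inner_conj_symm, x.inner_Q, inner_self_eq_norm_sq_to_K]
    push_cast
    rw [map_sub, map_sum]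
    congr 1
    · simp
    · refine Finset.sum_congr rfl fun i _ => ?_
      rw [map_mul]
      change (starRingEnd ℂ) ((starRingEnd ℂ) (x.1 i v)) * (starRingEnd ℂ) (x.1 i v) = _
      rw [Complex.conj_conj, Complex.mul_conj']
  rw [h1]
  have h2 := x.2.1 v
  constructor
  · exact congrArg Complex.ofReal (Complex.ofReal_re _)
  · rw [RCLike.re_to_complex, Complex.ofReal_re]
    linarith

/-- the operators `(1 - x x*)^{1/2}` -/
noncomputable def Pair.V {ξ : H} (x : Pair ξ) : H →L[ℂ] H := CFC.sqrt x.Q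

lemma Pair.inner_V {ξ : H} (x : Pair ξ) (u w : H) :
    inner ℂ (x.V u) (x.V w) = inner ℂ u w - ∑ i, star (x.1 i u) * x.1 i w := by
  rw [← x.inner_Q]
  have h1 : IsSelfAdjoint x.V := (CFC.sqrt_nonneg x.Q).isSelfAdjoint
  have h2 : ContinuousLinearMap.adjoint x.V = x.V := by
    rw [← ContinuousLinearMap.star_eq_adjoint]; exact h1
  rw [← ContinuousLinearMap.adjoint_inner_right, h2]
  have h3 : x.V * x.V = x.Q := CFC.sqrt_mul_sqrt_self x.Q x.Q_nonneg
  rw [← h3]
  rfl

lemma Pair.norm_V_sq {ξ : H} (x : Pair ξ) (u : H) :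
    ‖x.V u‖ ^ 2 = ‖u‖ ^ 2 - ∑ i, ‖x.1 i u‖ ^ 2 := by
  have h := x.inner_V u u
  rw [inner_self_eq_norm_sq_to_K, inner_self_eq_norm_sq_to_K] at h
  have h1 : ∀ i, star (x.1 i u) * x.1 i u = ((‖x.1 i u‖ ^ 2 : ℝ) : ℂ) := by
    intro i
    push_cast
    exact Complex.conj_mul' _
  simp only [h1] at h
  have h2 : ((‖x.V u‖ ^ 2 : ℝ) : ℂ) = ((‖u‖ ^ 2 - ∑ i, ‖x.1 i u‖ ^ 2 : ℝ) : ℂ) := by
    rw [Complex.ofReal_sub, Complex.ofReal_pow, Complex.ofReal_pow, Complex.ofReal_sum]
    exact h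
  exact Complex.ofReal_injective h2

lemma Pair.norm_V_le {ξ : H} (x : Pair ξ) (u : H) : ‖x.V u‖ ≤ ‖u‖ := by
  have h := x.norm_V_sq u
  have h1 : 0 ≤ ∑ i, ‖x.1 i u‖ ^ 2 := Finset.sum_nonneg fun _ _ => by positivity
  exact abs_le_of_sq_le_sq' (by linarith) (norm_nonneg _) |>.2

/-- the Dixmier-Douady type field -/
noncomputable def ddField (ξ : H) : Fld H (Pair ξ) where
  V := Pair.V
  norm_le := Pair.norm_V_le
  cont u w := by
    simp only [Pair.inner_V]
    refine continuous_const.sub (continuous_finsetSum _ fun i _ => ?_)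
    exact ((continuous_eval i u).comp continuous_subtype_val).star.mul
      ((continuous_eval i w).comp continuous_subtype_val)

lemma ddField_V {ξ : H} (x : Pair ξ) : (ddField ξ).V x = x.V := rfl

lemma ddField_split {ξ : H} (hξ : ‖ξ‖ = 1) : (ddField ξ).Split ξ where
  norm_eq := hξ
  inner_V x w := by
    rw [ddField_V, x.inner_V]
    have : ∀ i, x.1 i ξ = 0 := x.2.2
    simp [this]

lemma exists_unit_orth (hinf : ¬ FiniteDimensional ℂ H) (W : Submodule ℂ H)
    [FiniteDimensional ℂ W] : ∃ u : H, ‖u‖ = 1 ∧ ∀ v ∈ W, inner ℂ v u = 0 := by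
  have h1 : Wᗮ ≠ ⊥ := by
    intro h
    rw [Submodule.orthogonal_eq_bot_iff] at h
    subst h
    exact hinf (Submodule.topEquiv.finiteDimensional)
  obtain ⟨w, hw, hw0⟩ := Submodule.exists_mem_ne_zero_of_ne_bot h1
  refine ⟨(‖w‖⁻¹ : ℂ) • w, ?_, fun v hv => ?_⟩
  · rw [norm_smul, norm_inv, Complex.norm_real, norm_norm, inv_mul_cancel₀ (norm_ne_zero_iff.2 hw0)]
  · rw [inner_smul_right, (Submodule.mem_orthogonal W w).1 hw v hv, mul_zero]

lemma ddField_inf (hinf : ¬ FiniteDimensional ℂ H) (ξ : H) : (ddField ξ).Inf := by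
  intro x s
  classical
  have hfd : FiniteDimensional ℂ (Submodule.span ℂ ((s : Set H) ∪ Set.range x.vec)) :=
    FiniteDimensional.span_of_finite ℂ (s.finite_toSet.union (Set.finite_range _))
  obtain ⟨u, hu1, hu⟩ := exists_unit_orth hinf
    (Submodule.span ℂ ((s : Set H) ∪ Set.range x.vec))
  have hφ : ∀ i, x.1 i u = 0 := by
    intro i
    rw [← x.inner_vec]
    exact hu _ (Submodule.subset_span (Or.inr ⟨i, rfl⟩))
  refine ⟨u, ?_, fun v hv => ?_⟩
  · intro h0
    have h1 := x.norm_V_sq u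
    rw [ddField_V] at h0
    rw [h0, hu1] at h1
    simp [hφ] at h1
  · rw [ddField_V, x.inner_V, hu v (Submodule.subset_span (Or.inl hv))]
    simp [hφ]

instance (ξ : H) : PreconnectedSpace (Pair ξ) := by
  refine Subtype.preconnectedSpace ?_
  refine isPreconnected_of_forall (0 : Fin 2 → WeakDual ℂ H) fun φ hφ => ?_
  refine ⟨(fun t : ℝ => (t : ℂ) • φ) '' Set.Icc 0 1, ?_, ⟨0, by simp, by simp⟩,
    ⟨1, by simp, by simp⟩, ?_⟩
  · rintro _ ⟨t, ht, rfl⟩
    refine ⟨fun v => ?_, fun i => ?_⟩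
    · have h1 : ∀ i, ‖((t : ℂ) • φ) i v‖ ^ 2 = t ^ 2 * ‖φ i v‖ ^ 2 := by
        intro i
        change ‖(t : ℂ) • (φ i v)‖ ^ 2 = _
        rw [norm_smul, mul_pow, Complex.norm_real, Real.norm_eq_abs, sq_abs]
      simp only [h1]
      rw [← Finset.mul_sum]
      have h2 := hφ.1 v
      have h3 : 0 ≤ ∑ i, ‖φ i v‖ ^ 2 := Finset.sum_nonneg fun _ _ => by positivity
      have h4 : t ^ 2 ≤ 1 := by nlinarith [ht.1, ht.2]
      nlinarith [sq_nonneg t]
    · change (t : ℂ) • (φ i ξ) = 0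
      rw [hφ.2 i, smul_zero]
  · refine isPreconnected_Icc.image _ (Continuous.continuousOn ?_)
    refine continuous_pi fun i => WeakDual.continuous_of_continuous_eval fun v => ?_
    change Continuous fun t : ℝ => (t : ℂ) • (φ i v)
    fun_prop

lemma ddField_fun (hinf : ¬ FiniteDimensional ℂ H) (ξ : H) :
    ∃ f : C(Pair ξ, ℂ), (∃ x, f x = 0) ∧ (∃ x, f x = 1) ∧ star f = f := by
  obtain ⟨e, he1, he⟩ := exists_unit_orth hinf (Submodule.span ℂ {ξ})
  have heξ : inner ℂ e ξ = 0 :=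
    inner_eq_zero_symm.1 (he ξ (Submodule.mem_span_singleton_self ξ))
  refine ⟨⟨fun x => (‖x.1 0 e‖ : ℂ), ?_⟩, ?_, ?_, ?_⟩
  · exact Complex.continuous_ofReal.comp
      (((continuous_eval 0 e).comp continuous_subtype_val).norm)
  · refine ⟨⟨0, ⟨fun v => ?_, fun i => rfl⟩⟩, ?_⟩
    · have h1 : ∀ i, ‖(0 : Fin 2 → WeakDual ℂ H) i v‖ ^ 2 = 0 := by
        intro i
        change ‖(0 : ℂ)‖ ^ 2 = 0
        simp
      simp only [h1]
      simp
    · change ((‖(0 : ℂ)‖ : ℝ) : ℂ) = 0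
      simp
  · refine ⟨⟨fun i => if i = 0 then StrongDual.toWeakDual (innerSL ℂ e) else 0,
      ⟨fun v => ?_, fun i => ?_⟩⟩, ?_⟩
    · rw [Fin.sum_univ_two]
      change ‖(inner ℂ e v : ℂ)‖ ^ 2 + ‖(0 : ℂ)‖ ^ 2 ≤ _
      have h1 := norm_inner_le_norm (𝕜 := ℂ) e v
      rw [he1, one_mul] at h1
      rw [norm_zero]
      have := norm_nonneg (inner ℂ e v : ℂ)
      nlinarith
    · fin_cases i
      · exact heξ
      · rfl
    · change ((‖(inner ℂ e e : ℂ)‖ : ℝ) : ℂ) = 1
      rw [inner_self_eq_norm_sq_to_K, he1]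
      simp
  · ext x
    change (starRingEnd ℂ) ((‖x.1 0 e‖ : ℝ) : ℂ) = _
    rw [Complex.conj_ofReal]
    rfl

end

end Pool.Agent.AFCor
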