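import Mathlib
import Pool.Agent.AFCor.Basic
import Pool.Agent.AFCor.Quot
import Pool.Agent.AFCor.Mat
import Pool.Agent.AFCor.Space
import Pool.Agent.Lib.Brouwer

/-!
# Any two sections of the complement have a common zero
-/

open scoped ENNReal InnerProductSpace

set_option linter.unusedSectionVars false

namespace Pool.Agent.AFCor

section

variable {H : Type} [NormedAddCommGroup H] [InnerProductSpace ℂ H] [CompleteSpace H]

lemma bessel2 {a b : H} (ha : ‖a‖ = 1) (hb : ‖b‖ = 1) (hab : inner ℂ a b = 0) (v : H) :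
    ‖(inner ℂ a v : ℂ)‖ ^ 2 + ‖(inner ℂ b v : ℂ)‖ ^ 2 ≤ ‖v‖ ^ 2 := by
  have ho : Orthonormal ℂ ![a, b] := by
    rw [orthonormal_iff_ite]
    intro i j
    fin_cases i <;> fin_cases j
    · simp [inner_self_eq_norm_sq_to_K, ha]
    · simp [hab]
    · simp [inner_eq_zero_symm.1 hab]
    · simp [inner_self_eq_norm_sq_to_K, hb]
  have h := ho.sum_inner_products_le (x := v) (s := Finset.univ)
  simpa [Fin.sum_univ_two] using h

/-- the pair of functionals given by two vectors -/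
noncomputable def mkPair (ξ a b : H)
    (h : ∀ v, ‖(inner ℂ a v : ℂ)‖ ^ 2 + ‖(inner ℂ b v : ℂ)‖ ^ 2 ≤ ‖v‖ ^ 2)
    (ha : inner ℂ a ξ = 0) (hb : inner ℂ b ξ = 0) : Pair ξ :=
  ⟨fun i => StrongDual.toWeakDual (innerSL ℂ (if i = 0 then a else b)), by
    refine ⟨fun v => ?_, fun i => ?_⟩
    · rw [Fin.sum_univ_two]
      exact h v
    · fin_cases i
      · exact ha
      · exact hb⟩

lemma norm_V_mkPair_sq {ξ a b : H}
    (h : ∀ v, ‖(inner ℂ a v : ℂ)‖ ^ 2 + ‖(inner ℂ b v : ℂ)‖ ^ 2 ≤ ‖v‖ ^ 2)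
    (ha : inner ℂ a ξ = 0) (hb : inner ℂ b ξ = 0) (v : H) :
    ‖(mkPair ξ a b h ha hb).V v‖ ^ 2 =
      ‖v‖ ^ 2 - (‖(inner ℂ a v : ℂ)‖ ^ 2 + ‖(inner ℂ b v : ℂ)‖ ^ 2) := by
  rw [Pair.norm_V_sq, Fin.sum_univ_two]
  rfl

theorem ddField_zero (hinf : ¬ FiniteDimensional ℂ H) (ξ : H) : (ddField ξ).Zero ξ := by
  rintro g g' ⟨hg, E, hE, hgE, hE0⟩ ⟨hg', E', hE', hgE', hE0'⟩ ε hε
  obtain ⟨u₁, hu₁, ho₁⟩ := exists_unit_orth hinf (E ⊔ E' ⊔ Submodule.span ℂ {ξ})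
  obtain ⟨u₂, hu₂, ho₂⟩ := exists_unit_orth hinf
    (E ⊔ E' ⊔ Submodule.span ℂ {ξ} ⊔ Submodule.span ℂ {u₁})
  set W : Submodule ℂ H := E ⊔ E' ⊔ Submodule.span ℂ {u₁} ⊔ Submodule.span ℂ {u₂} with hW
  have hEW : ∀ v ∈ E, v ∈ W := fun v hv =>
    Submodule.mem_sup_left (Submodule.mem_sup_left (Submodule.mem_sup_left hv))
  have hEW' : ∀ v ∈ E', v ∈ W := fun v hv =>
    Submodule.mem_sup_left (Submodule.mem_sup_left (Submodule.mem_sup_right hv))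
  have hu₁W : u₁ ∈ W :=
    Submodule.mem_sup_left (Submodule.mem_sup_right (Submodule.mem_span_singleton_self _))
  have hu₂W : u₂ ∈ W := Submodule.mem_sup_right (Submodule.mem_span_singleton_self _)
  -- orthogonality relations
  have o1E : ∀ v ∈ E, inner ℂ u₁ v = 0 := fun v hv => inner_eq_zero_symm.1
    (ho₁ v (Submodule.mem_sup_left (Submodule.mem_sup_left hv)))
  have o2E : ∀ v ∈ E, inner ℂ u₂ v = 0 := fun v hv => inner_eq_zero_symm.1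
    (ho₂ v (Submodule.mem_sup_left (Submodule.mem_sup_left (Submodule.mem_sup_left hv))))
  have o2E' : ∀ v ∈ E', inner ℂ u₂ v = 0 := fun v hv => inner_eq_zero_symm.1
    (ho₂ v (Submodule.mem_sup_left (Submodule.mem_sup_left (Submodule.mem_sup_right hv))))
  have o21 : inner ℂ u₂ u₁ = 0 := inner_eq_zero_symm.1
    (ho₂ u₁ (Submodule.mem_sup_right (Submodule.mem_span_singleton_self _)))
  have oξ1 : inner ℂ ξ u₁ = 0 :=
    ho₁ ξ (Submodule.mem_sup_right (Submodule.mem_span_singleton_self _))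
  have oξ2 : inner ℂ ξ u₂ = 0 :=
    ho₂ ξ (Submodule.mem_sup_left (Submodule.mem_sup_right (Submodule.mem_span_singleton_self _)))
  have hWξ : ∀ v ∈ W, inner ℂ v ξ = 0 := by
    intro v hv
    refine inner_eq_zero_symm.1 ?_
    rw [hW] at hv
    obtain ⟨a, ha, b, hb, rfl⟩ := Submodule.mem_sup.1 hv
    obtain ⟨c, hc, d, hd, rfl⟩ := Submodule.mem_sup.1 ha
    obtain ⟨e, he, f, hf, rfl⟩ := Submodule.mem_sup.1 hc
    obtain ⟨z, rfl⟩ := Submodule.mem_span_singleton.1 hb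
    obtain ⟨z', rfl⟩ := Submodule.mem_span_singleton.1 hd
    simp only [inner_add_right, inner_smul_right, hE0 e he, hE0' f hf, oξ1, oξ2, mul_zero,
      add_zero]
  -- the convex set
  set K : Set (W × W) := {p | ∀ v : H, ‖(inner ℂ (p.1 : H) v : ℂ)‖ ^ 2 +
    ‖(inner ℂ (p.2 : H) v : ℂ)‖ ^ 2 ≤ ‖v‖ ^ 2} with hK
  let ι : K → Pair ξ := fun p =>
    mkPair ξ (p.1.1 : H) (p.1.2 : H) p.2 (hWξ _ p.1.1.2) (hWξ _ p.1.2.2)
  have hι : Continuous ι := by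
    refine Continuous.subtype_mk (continuous_pi fun i =>
      WeakDual.continuous_of_continuous_eval fun v => ?_) _
    change Continuous fun p : K => inner ℂ (if i = 0 then (p.1.1 : H) else (p.1.2 : H)) v
    fin_cases i
    · change Continuous fun p : K => inner ℂ (p.1.1 : H) v
      fun_prop
    · change Continuous fun p : K => inner ℂ (p.1.2 : H) v
      fun_prop
  -- Gram-Schmidt
  let v₁ : K → W := fun p => ⟨g (ι p) + (ε : ℂ) • u₁,
    W.add_mem (hEW _ (hgE _)) (W.smul_mem _ hu₁W)⟩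
  let v₂ : K → W := fun p => ⟨g' (ι p) + (ε : ℂ) • u₂,
    W.add_mem (hEW' _ (hgE' _)) (W.smul_mem _ hu₂W)⟩
  have hv₁c : Continuous v₁ :=
    Continuous.subtype_mk ((hg.comp hι).add continuous_const) _
  have hv₂c : Continuous v₂ :=
    Continuous.subtype_mk ((hg'.comp hι).add continuous_const) _
  have hv₁0 : ∀ p, v₁ p ≠ 0 := by
    intro p h0
    have h1 : inner ℂ u₁ (v₁ p : H) = (ε : ℂ) := by
      change inner ℂ u₁ (g (ι p) + (ε : ℂ) • u₁) = (ε : ℂ)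
      rw [inner_add_right, o1E _ (hgE _), inner_smul_right, inner_self_eq_norm_sq_to_K, hu₁]
      simp
    rw [h0] at h1
    simp only [ZeroMemClass.coe_zero, inner_zero_right] at h1
    exact hε.ne (by exact_mod_cast h1)
  let e₁ : K → W := fun p => ((‖v₁ p‖⁻¹ : ℝ) : ℂ) • v₁ p
  have he₁c : Continuous e₁ := by
    refine Continuous.smul (Complex.continuous_ofReal.comp ?_) hv₁c
    exact hv₁c.norm.inv₀ fun p => norm_ne_zero_iff.2 (hv₁0 p)
  have he₁n : ∀ p, ‖e₁ p‖ = 1 := by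
    intro p
    change ‖((‖v₁ p‖⁻¹ : ℝ) : ℂ) • v₁ p‖ = 1
    rw [norm_smul, Complex.norm_real, norm_inv, norm_norm,
      inv_mul_cancel₀ (norm_ne_zero_iff.2 (hv₁0 p))]
  let w₂ : K → W := fun p => v₂ p - (inner ℂ (e₁ p) (v₂ p) : ℂ) • e₁ p
  have hw₂c : Continuous w₂ := by
    have h1 : Continuous fun p => (inner ℂ (e₁ p) (v₂ p) : ℂ) := he₁c.inner hv₂c
    exact hv₂c.sub (h1.smul he₁c)
  have hw₂0 : ∀ p, w₂ p ≠ 0 := by
    intro p h0
    have h1 : inner ℂ u₂ (w₂ p : H) = (ε : ℂ) := by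
      change inner ℂ u₂ ((g' (ι p) + (ε : ℂ) • u₂) - (inner ℂ (e₁ p) (v₂ p) : ℂ) •
        (((‖v₁ p‖⁻¹ : ℝ) : ℂ) • (g (ι p) + (ε : ℂ) • u₁))) = (ε : ℂ)
      rw [inner_sub_right, inner_add_right, o2E' _ (hgE' _), inner_smul_right,
        inner_self_eq_norm_sq_to_K, hu₂, inner_smul_right, inner_smul_right, inner_add_right,
        inner_smul_right, o21, o2E _ (hgE _)]
      simp
    rw [h0] at h1
    simp only [ZeroMemClass.coe_zero, inner_zero_right] at h1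
    exact hε.ne (by exact_mod_cast h1)
  let e₂ : K → W := fun p => ((‖w₂ p‖⁻¹ : ℝ) : ℂ) • w₂ p
  have he₂c : Continuous e₂ := by
    refine Continuous.smul (Complex.continuous_ofReal.comp ?_) hw₂c
    exact hw₂c.norm.inv₀ fun p => norm_ne_zero_iff.2 (hw₂0 p)
  have he₂n : ∀ p, ‖e₂ p‖ = 1 := by
    intro p
    change ‖((‖w₂ p‖⁻¹ : ℝ) : ℂ) • w₂ p‖ = 1
    rw [norm_smul, Complex.norm_real, norm_inv, norm_norm,
      inv_mul_cancel₀ (norm_ne_zero_iff.2 (hw₂0 p))]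
  have he₁₂ : ∀ p, inner ℂ (e₁ p : H) (e₂ p : H) = 0 := by
    intro p
    change inner ℂ (e₁ p : H) (((‖w₂ p‖⁻¹ : ℝ) : ℂ) •
      ((v₂ p : H) - (inner ℂ (e₁ p : H) (v₂ p : H) : ℂ) • (e₁ p : H))) = 0
    have h1 : inner ℂ (e₁ p : H) (e₁ p : H) = (1 : ℂ) := by
      rw [inner_self_eq_norm_sq_to_K]
      have : ‖(e₁ p : H)‖ = 1 := he₁n p
      rw [this]; simp
    rw [inner_smul_right, inner_sub_right, inner_smul_right, h1, mul_one, sub_self, mul_zero]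
  have hmaps : ∀ p : K, (e₁ p, e₂ p) ∈ K := fun p v =>
    bessel2 (a := (e₁ p : H)) (b := (e₂ p : H)) (he₁n p) (he₂n p) (he₁₂ p) v
  -- the fixed point
  classical
  let Φ : W × W → W × W := fun p => if h : p ∈ K then (e₁ ⟨p, h⟩, e₂ ⟨p, h⟩) else 0
  have hΦ : ∀ p : K, Φ p = (e₁ p, e₂ p) := fun p => dif_pos p.2
  have hΦc : ContinuousOn Φ K := by
    rw [continuousOn_iff_continuous_domRestrict]
    have : K.domRestrict Φ = fun p => (e₁ p, e₂ p) := funext hΦ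
    rw [this]
    exact he₁c.prodMk he₂c
  have hKc : Convex ℝ K := by
    intro p hp q hq a b ha hb hab v
    have key : ∀ x y : H, ‖(inner ℂ (a • x + b • y) v : ℂ)‖ ^ 2 ≤
        a * ‖(inner ℂ x v : ℂ)‖ ^ 2 + b * ‖(inner ℂ y v : ℂ)‖ ^ 2 := by
      intro x y
      have h1 : (inner ℂ (a • x + b • y) v : ℂ) = a * inner ℂ x v + b * inner ℂ y v := by
        rw [inner_add_left, inner_smul_left_eq_smul, inner_smul_left_eq_smul]
        simp
      rw [h1]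
      have h2 : ‖(a : ℂ) * inner ℂ x v + b * inner ℂ y v‖ ≤
          a * ‖(inner ℂ x v : ℂ)‖ + b * ‖(inner ℂ y v : ℂ)‖ := by
        refine (norm_add_le _ _).trans (le_of_eq ?_)
        rw [norm_mul, norm_mul, Complex.norm_real, Complex.norm_real, Real.norm_of_nonneg ha,
          Real.norm_of_nonneg hb]
      have h3 : b = 1 - a := by linarith
      calc ‖(a : ℂ) * inner ℂ x v + b * inner ℂ y v‖ ^ 2
          ≤ (a * ‖(inner ℂ x v : ℂ)‖ + b * ‖(inner ℂ y v : ℂ)‖) ^ 2 :=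
            pow_le_pow_left₀ (norm_nonneg _) h2 2
        _ ≤ _ := by
            subst h3
            nlinarith [sq_nonneg (‖(inner ℂ x v : ℂ)‖ - ‖(inner ℂ y v : ℂ)‖),
              mul_nonneg ha hb]
    have k1 := key (p.1 : H) (q.1 : H)
    have k2 := key (p.2 : H) (q.2 : H)
    have hp' := hp v
    have hq' := hq v
    change ‖(inner ℂ (a • (p.1 : H) + b • (q.1 : H)) v : ℂ)‖ ^ 2 +
      ‖(inner ℂ (a • (p.2 : H) + b • (q.2 : H)) v : ℂ)‖ ^ 2 ≤ ‖v‖ ^ 2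
    have h5 : a * (‖(inner ℂ (p.1 : H) v : ℂ)‖ ^ 2 + ‖(inner ℂ (p.2 : H) v : ℂ)‖ ^ 2) +
        b * (‖(inner ℂ (q.1 : H) v : ℂ)‖ ^ 2 + ‖(inner ℂ (q.2 : H) v : ℂ)‖ ^ 2) ≤
        a * ‖v‖ ^ 2 + b * ‖v‖ ^ 2 :=
      add_le_add (mul_le_mul_of_nonneg_left hp' ha) (mul_le_mul_of_nonneg_left hq' hb)
    have h6 : a * ‖v‖ ^ 2 + b * ‖v‖ ^ 2 = ‖v‖ ^ 2 := by rw [← add_mul, hab, one_mul]
    linarith
  have hKclosed : IsClosed K := by
    have : K = ⋂ v : H, {p : W × W | ‖(inner ℂ (p.1 : H) v : ℂ)‖ ^ 2 +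
        ‖(inner ℂ (p.2 : H) v : ℂ)‖ ^ 2 ≤ ‖v‖ ^ 2} := by
      ext p; simp [hK]
    rw [this]
    exact isClosed_iInter fun v => isClosed_le (by fun_prop) continuous_const
  have hfdR : FiniteDimensional ℝ W := FiniteDimensional.complexToReal W
  have hKb : K ⊆ Metric.closedBall 0 1 := by
    intro p hp
    rw [mem_closedBall_zero_iff, Prod.norm_def]
    have key : ∀ x : H, (‖(inner ℂ x x : ℂ)‖ ^ 2 ≤ ‖x‖ ^ 2) → ‖x‖ ≤ 1 := by
      intro x hx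
      have h1 : ‖(inner ℂ x x : ℂ)‖ = ‖x‖ ^ 2 := by
        rw [inner_self_eq_norm_sq_to_K]; simp
      rw [h1] at hx
      by_contra hcon
      push Not at hcon
      have h2 : 1 < ‖x‖ ^ 2 := by nlinarith
      nlinarith
    refine max_le ?_ ?_
    · refine key (p.1 : H) ?_
      have h1 := hp (p.1 : H)
      have h2 : 0 ≤ ‖(inner ℂ (p.2 : H) (p.1 : H) : ℂ)‖ ^ 2 := by positivity
      linarith
    · refine key (p.2 : H) ?_
      have h1 := hp (p.2 : H)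
      have h2 : 0 ≤ ‖(inner ℂ (p.1 : H) (p.2 : H) : ℂ)‖ ^ 2 := by positivity
      linarith
  have hKcomp : IsCompact K := by
    have : ProperSpace (W × W) := FiniteDimensional.proper ℝ (W × W)
    exact (isCompact_closedBall (0 : W × W) 1).of_isClosed_subset hKclosed hKb
  have hKne : K.Nonempty := ⟨0, fun v => by simp⟩
  obtain ⟨p, hp, hfix⟩ := Pool.Lib.brouwer_fixed_point_convex hKcomp hKc hKne hΦc
    (fun p hp => by rw [hΦ ⟨p, hp⟩]; exact hmaps ⟨p, hp⟩)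
  rw [hΦ ⟨p, hp⟩] at hfix
  set P : K := ⟨p, hp⟩ with hP
  have hp1 : (p.1 : H) = (e₁ P : H) := by rw [← hfix]
  have hp2 : (p.2 : H) = (e₂ P : H) := by rw [← hfix]
  set x := ι P with hx
  have hVsq : ∀ v, ‖x.V v‖ ^ 2 = ‖v‖ ^ 2 - (‖(inner ℂ (e₁ P : H) v : ℂ)‖ ^ 2 +
      ‖(inner ℂ (e₂ P : H) v : ℂ)‖ ^ 2) := by
    intro v
    rw [← hp1, ← hp2]
    exact norm_V_mkPair_sq _ _ _ v
  have n1 : ‖(e₁ P : H)‖ = 1 := he₁n P
  have n2 : ‖(e₂ P : H)‖ = 1 := he₂n P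
  have i11 : inner ℂ (e₁ P : H) (e₁ P : H) = (1 : ℂ) := by
    rw [inner_self_eq_norm_sq_to_K, n1]; simp
  have i22 : inner ℂ (e₂ P : H) (e₂ P : H) = (1 : ℂ) := by
    rw [inner_self_eq_norm_sq_to_K, n2]; simp
  have i21 : inner ℂ (e₂ P : H) (e₁ P : H) = (0 : ℂ) := inner_eq_zero_symm.1 (he₁₂ P)
  have hVe₁ : x.V (e₁ P : H) = 0 := by
    rw [← norm_eq_zero]
    refine pow_eq_zero_iff (two_ne_zero) |>.1 ?_
    rw [hVsq, n1, i11, i21]; simp
  have hVe₂ : x.V (e₂ P : H) = 0 := by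
    rw [← norm_eq_zero]
    refine pow_eq_zero_iff (two_ne_zero) |>.1 ?_
    rw [hVsq, n2, i22, he₁₂ P]; simp
  have hVv₁ : x.V (v₁ P : H) = 0 := by
    have h1 : (v₁ P : H) = ((‖v₁ P‖ : ℝ) : ℂ) • (e₁ P : H) := by
      change (v₁ P : H) = ((‖v₁ P‖ : ℝ) : ℂ) • (((‖v₁ P‖⁻¹ : ℝ) : ℂ) • (v₁ P : H))
      rw [smul_smul, ← Complex.ofReal_mul, mul_inv_cancel₀ (norm_ne_zero_iff.2 (hv₁0 P))]
      simp
    rw [h1, map_smul, hVe₁, smul_zero]
  have hVv₂ : x.V (v₂ P : H) = 0 := by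
    have h1 : (w₂ P : H) = ((‖w₂ P‖ : ℝ) : ℂ) • (e₂ P : H) := by
      change (w₂ P : H) = ((‖w₂ P‖ : ℝ) : ℂ) • (((‖w₂ P‖⁻¹ : ℝ) : ℂ) • (w₂ P : H))
      rw [smul_smul, ← Complex.ofReal_mul, mul_inv_cancel₀ (norm_ne_zero_iff.2 (hw₂0 P))]
      simp
    have h2 : (v₂ P : H) = (w₂ P : H) + (inner ℂ (e₁ P) (v₂ P) : ℂ) • (e₁ P : H) := by
      change (v₂ P : H) = ((v₂ P : H) - (inner ℂ (e₁ P) (v₂ P) : ℂ) • (e₁ P : H)) +
        (inner ℂ (e₁ P) (v₂ P) : ℂ) • (e₁ P : H)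
      abel
    rw [h2, h1, map_add, map_smul, map_smul, hVe₁, hVe₂, smul_zero, smul_zero, add_zero]
  have fin : ∀ (h u : H), ‖u‖ = 1 → x.V (h + (ε : ℂ) • u) = 0 → ‖x.V h‖ ≤ ε := by
    intro h u hu h0
    rw [map_add, map_smul] at h0
    have h1 : x.V h = -((ε : ℂ) • x.V u) := eq_neg_of_add_eq_zero_left h0
    rw [h1, norm_neg, norm_smul, Complex.norm_real, Real.norm_of_nonneg hε.le]
    calc ε * ‖x.V u‖ ≤ ε * 1 :=
          mul_le_mul_of_nonneg_left ((x.norm_V_le u).trans hu.le) hε.le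
      _ = ε := mul_one _
  exact ⟨x, fin _ _ hu₁ hVv₁, fin _ _ hu₂ hVv₂⟩

end

end Pool.Agent.AFCor
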