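import Mathlib
import Pool.Agent.AFCor.Defs
import Pool.Agent.AFCor.Basic
import Pool.Agent.AFCor.Quot
import Pool.Agent.AFCor.Mat
import Pool.Agent.AFCor.NotAF
import Pool.Agent.AFCor.Space
import Pool.Agent.AFCor.ZeroLem

/-!
# The counterexample
-/

open scoped ENNReal InnerProductSpace ComplexOrder

set_option linter.unusedSectionVars false

namespace Pool.Agent.AFCor

/-- the Hilbert space `ℓ²(ℕ)` -/
noncomputable abbrev L2 : Type := lp (fun _ : ℕ => ℂ) 2

noncomputable def L2_basis : HilbertBasis ℕ ℂ L2 := HilbertBasis.ofRepr (LinearIsometryEquiv.refl ℂ _)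

instance : TopologicalSpace.SeparableSpace L2 := by
  have hb := L2_basis.dense_span
  have h1 : TopologicalSpace.IsSeparable (Submodule.span ℂ (Set.range L2_basis) : Set L2) :=
    (Set.countable_range _).isSeparable.span
  have h2 : TopologicalSpace.IsSeparable (Set.univ : Set L2) := by
    have h3 := h1.closure
    have h4 : closure (Submodule.span ℂ (Set.range L2_basis) : Set L2) = Set.univ := by
      rw [← Submodule.topologicalClosure_coe, hb]
      rfl
    rwa [h4] at h3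
  exact TopologicalSpace.isSeparable_univ_iff.1 h2

lemma L2_inf : ¬ FiniteDimensional ℂ L2 := by
  intro h
  have h1 : LinearIndependent ℂ L2_basis := L2_basis.orthonormal.linearIndependent
  have h2 := h1.finite
  exact not_finite ℕ

lemma isAF_of_finiteDimensional (B : Type) [NonUnitalCStarAlgebra B] [FiniteDimensional ℂ B] :
    IsAF B := by
  refine ⟨fun _ => ⊤, monotone_const, fun n => ?_, ?_⟩
  · exact FiniteDimensional.finiteDimensional_submodule (⊤ : Submodule ℂ B)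
  · have h1 : (⋃ _n : ℕ, ((⊤ : NonUnitalStarSubalgebra ℂ B) : Set B)) = Set.univ := by
      rw [Set.iUnion_const]; rfl
    rw [h1, closure_univ]

theorem exists_counterexample :
    ∃ (A : Type) (_ : NonUnitalCStarAlgebra A), TopologicalSpace.SeparableSpace A ∧
      NoUnitalQuotients A ∧ ¬ IsAF A ∧
      IsEmpty (CStarMatrix (Fin 2) (Fin 2) ℂ →⋆ₐ[ℂ] Corona A) ∧ ¬ UniversalAFEmbedding A := by
  obtain ⟨ξ, hξ, -⟩ := exists_unit_orth L2_inf (⊥ : Submodule ℂ L2)
  set F := ddField ξ with hF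
  have hsplit := ddField_split hξ
  have hempty : IsEmpty (CStarMatrix (Fin 2) (Fin 2) ℂ →⋆ₐ[ℂ] Corona F.alg) :=
    F.isEmpty_hom hsplit (ddField_zero L2_inf ξ)
  obtain ⟨f, hf0, hf1, hfr⟩ := ddField_fun L2_inf ξ
  refine ⟨F.alg, inferInstance, F.separable, ⟨?_, ?_⟩, ?_, hempty, ?_⟩
  · obtain ⟨x, -⟩ := hf0
    refine ⟨⟨⟨F.gen 0 1 ξ ξ, F.gen_mem_alg _ _ _ _⟩, 0, fun h => ?_⟩⟩
    have h1 : F.gen 0 1 ξ ξ = 0 := congrArg Subtype.val h
    have h2 : (F.gen 0 1 ξ ξ : Amb L2 (Pair ξ)) (0, x) (F.V x ξ) = 0 := by rw [h1]; rfl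
    rw [F.gen_apply_self] at h2
    change (1 : ℂ) • (inner ℂ (F.V x ξ) (F.V x ξ) • F.V x ξ) = 0 at h2
    rw [inner_self_eq_norm_sq_to_K, hsplit.norm_V] at h2
    have h3 : F.V x ξ = 0 := by simpa using h2
    have h4 := hsplit.norm_V (F := F) x
    rw [h3, norm_zero] at h4
    exact zero_ne_one h4
  · rintro I hI hI1 ⟨e, he⟩
    exact hI1 (F.ideal_eq_top (ddField_inf L2_inf ξ) I hI e fun a => (he a).1)
  · exact F.not_isAF hsplit f hf0 hf1 hfr
  · rintro ⟨-, h⟩
    have : FiniteDimensional ℂ (CStarMatrix (Fin 2) (Fin 2) ℂ) :=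
      inferInstanceAs (FiniteDimensional ℂ (Matrix (Fin 2) (Fin 2) ℂ))
    obtain ⟨φ, -⟩ := h (CStarMatrix (Fin 2) (Fin 2) ℂ) inferInstance
      (isAF_of_finiteDimensional _)
    exact hempty.false φ

end Pool.Agent.AFCor
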